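import Mathlib
import Pool.Agent.H855.DP.SpaceDefs
import Pool.Agent.H855.HG.PowDefs

/-!
# De Rham-Betti classes on products with varieties of CM type: definitions
-/

set_option autoImplicit false
set_option linter.unusedSectionVars false

namespace Pool.Agent.H855.DRB

open Matrix Module NumberField Pool.Agent.Y137.MV Pool.Agent.H855.CM Pool.Agent.H855.DP
  Pool.Agent.H855.HG

/-- A square root of `2πi`. -/
noncomputable def root : ℂ := Complex.exp (Complex.log (2 * Real.pi * Complex.I) / 2)

/-- The cohomology of a smooth projective variety over the algebraic numbers: the Betti cohomology is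
`ℚ^B`, the basis vector `b` has degree `deg b`, and `per` is the matrix of the comparison isomorphism
from the Betti to the de Rham cohomology, for a basis of the algebraic de Rham cohomology. -/
structure DRBSpace (B : Type) [Fintype B] where
  /-- the degrees of the basis vectors -/
  deg : B → ℕ
  /-- the comparison isomorphism -/
  per : Matrix B B ℂ
  graded : ∀ b b', deg b ≠ deg b' → per b b' = 0
  injective : ∀ w : B → ℂ, per *ᵥ w = 0 → w = 0

variable {A B B' : Type} [Fintype A] [Fintype B] [Fintype B']

/-- The comparison isomorphism, multiplied by `(2πi)^(m/2)` in degree `m`. -/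
noncomputable def DRBSpace.cmp (V : DRBSpace B) : Matrix B B ℂ := fun b b' =>
  root ^ V.deg b * V.per b b'

/-- The de Rham-Betti classes of degree `m`: the rational classes `x` of degree `m` such that
`(2πi)^(m/2) x` is in the de Rham cohomology over the algebraic numbers. For `m = 2 j` these are the
de Rham-Betti classes of codimension `j`. -/
noncomputable def DRBSpace.classes (V : DRBSpace B) (m : ℕ) : Submodule ℚ (B → ℚ) where
  carrier := {x | (∀ b, IsAlgebraic ℚ ((V.cmp *ᵥ cv x) b)) ∧ ∀ b, V.deg b ≠ m → x b = 0}
  zero_mem' := by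
    have h : cv (0 : B → ℚ) = 0 := by
      funext b
      simp [cv]
    refine ⟨fun b => ?_, fun _ _ => rfl⟩
    rw [h, Matrix.mulVec_zero]
    exact isAlgebraic_zero
  add_mem' := fun {x y} hx hy => by
    have h : cv (x + y) = cv x + cv y := by
      funext b
      simp [cv]
    refine ⟨fun b => ?_, fun b hb => by rw [Pi.add_apply, hx.2 b hb, hy.2 b hb, add_zero]⟩
    rw [h, Matrix.mulVec_add, Pi.add_apply]
    exact (hx.1 b).add (hy.1 b)
  smul_mem' := fun c x hx => by
    have h : cv (c • x) = (c : ℂ) • cv x := by
      funext b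
      simp [cv]
    refine ⟨fun b => ?_, fun b hb => by rw [Pi.smul_apply, hx.2 b hb, smul_zero]⟩
    rw [h, Matrix.mulVec_smul, Pi.smul_apply, smul_eq_mul]
    exact (isAlgebraic_algebraMap (c : ℚ)).mul (hx.1 b)

/-- The algebraic vector `w` and all its conjugates `σ w` are multiples of de Rham classes: `c σ` is
the period of `σ w`, that is `c σ (2πi)^(m/2) σ w` (in degree `m`) is in the de Rham cohomology over
the algebraic numbers. -/
def DRBSpace.HasPeriods (V : DRBSpace B) (w : B → ℂ) (c : (ℂ ≃+* ℂ) → ℂˣ) : Prop :=
  (∀ b, IsAlgebraic ℚ (w b)) ∧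
    ∀ σ b, IsAlgebraic ℚ ((c σ : ℂ) * (V.cmp *ᵥ fun b => σ (w b)) b)

/-- The cohomology is of CM type: it is generated by vectors which are, with all conjugates, multiples
of de Rham classes. -/
def DRBSpace.IsOfCMType (V : DRBSpace B) : Prop :=
  Submodule.span ℂ {w | ∃ c, V.HasPeriods w c} = ⊤

/-- The cohomology of a point. -/
noncomputable def DRBSpace.point : DRBSpace Unit where
  deg _ := 0
  per := fun _ _ => 1
  graded _ _ h := absurd rfl h
  injective w h := by
    funext u
    have h1 := congrFun h u
    simpa [Matrix.mulVec, dotProduct] using h1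

theorem per_prod (V : DRBSpace B') (W : DRBSpace B) (z : B' × B → ℂ) (a : B') (b : B) :
    ((fun p q => V.per p.1 q.1 * W.per p.2 q.2 : Matrix (B' × B) (B' × B) ℂ) *ᵥ z) (a, b) =
      (V.per *ᵥ fun a' => (W.per *ᵥ fun b' => z (a', b')) b) a := by
  simp only [Matrix.mulVec, dotProduct]
  rw [Fintype.sum_prod_type]
  refine Finset.sum_congr rfl fun a' _ => ?_
  rw [Finset.mul_sum]
  exact Finset.sum_congr rfl fun b' _ => by ring

/-- The cohomology of a product (theorem of Kunneth). -/
noncomputable def DRBSpace.prod (V : DRBSpace B') (W : DRBSpace B) : DRBSpace (B' × B) where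
  deg p := V.deg p.1 + W.deg p.2
  per := fun p q => V.per p.1 q.1 * W.per p.2 q.2
  graded p q h := by
    by_cases h1 : V.deg p.1 = V.deg q.1
    · by_cases h2 : W.deg p.2 = W.deg q.2
      · exact absurd (by rw [h1, h2]) h
      · rw [W.graded _ _ h2, mul_zero]
    · rw [V.graded _ _ h1, zero_mul]
  injective z hz := by
    have h1 : ∀ b, (fun a' => (W.per *ᵥ fun b' => z (a', b')) b) = 0 := by
      intro b
      refine V.injective _ ?_
      funext a
      have h2 := congrFun hz (a, b)
      rw [per_prod] at h2
      exact h2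
    funext p
    have h2 : (fun b' => z (p.1, b')) = 0 := by
      refine W.injective _ ?_
      funext b
      exact congrFun (h1 b) p.1
    exact congrFun h2 p.2

/-- The cohomology of the power `Y^s`. -/
noncomputable def DRBSpace.pow (Y : DRBSpace B) : ∀ s, DRBSpace (HG.Pow B s)
  | 0 => DRBSpace.point
  | s + 1 => Y.prod (Y.pow s)

/-- A homomorphism `ℂˣ → ℝ` the kernel of which are the algebraic numbers; in other words an injective
homomorphism of `ℂˣ` modulo the algebraic numbers, a vector space over `ℚ`, to the real numbers. -/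
structure IsLog (lam : ℂˣ → ℝ) : Prop where
  mul : ∀ x y, lam (x * y) = lam x + lam y
  zero_iff : ∀ x : ℂˣ, lam x = 0 ↔ IsAlgebraic ℚ (x : ℂ)

/-- **The space of the periods of the powers of `Y`**, as functions on the automorphisms of `ℂ`: the
rational space generated by the functions `σ ↦ lam (c σ)`, for all vectors with periods `c` in the
cohomology of the powers of `Y`. -/
noncomputable def DRBSpace.periodSpace (lam : ℂˣ → ℝ) (Y : DRBSpace B) :
    Submodule ℚ ((ℂ ≃+* ℂ) → ℝ) :=
  Submodule.span ℚ {f | ∃ (s : ℕ) (w : HG.Pow B s → ℂ) (c : (ℂ ≃+* ℂ) → ℂˣ), w ≠ 0 ∧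
    (Y.pow s).HasPeriods w c ∧ f = fun σ => lam (c σ)}

/-- The sizes of the spaces. The space `V` of the periods of the powers of `Y` has a finite
dimension `d`, and

* `d ≤ ∑ b_i²`, where the `b_i` are the Betti numbers of `Y`;
* for all CM fields `E` the dimension of the exceptional space `excSpace V E` is at most `d`;
* for all finite families of pairwise unrelated CM fields `E i` whose exceptional spaces are not zero
  `∑ m i ≤ d`, where `m i` is a lower bound for the dimensions of the nonzero stable spaces of odd
  rational functions on the embeddings of `E i` (`m i = 1` is possible). -/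
def PeriodsAreSmall (lam : ℂˣ → ℝ) (Y : DRBSpace B) : Prop :=
  FiniteDimensional ℚ (Y.periodSpace lam) ∧
    finrank ℚ (Y.periodSpace lam) ≤ Nat.card {p : B × B // Y.deg p.1 = Y.deg p.2} ∧
    (∀ (E : Type) [Field E] [NumberField E] [IsCMField E],
      FiniteDimensional ℚ (excSpace (Y.periodSpace lam) E) ∧
        finrank ℚ (excSpace (Y.periodSpace lam) E) ≤ finrank ℚ (Y.periodSpace lam)) ∧
    ∀ (I : Type) [Fintype I] (E : I → Type) [∀ i, Field (E i)] [∀ i, NumberField (E i)]
      [∀ i, IsCMField (E i)] (m : I → ℕ), (∀ i k, i ≠ k → Unrelated (E i) (E k)) →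
      (∀ i, IsLowerBound (E i) (m i)) → (∀ i, excSpace (Y.periodSpace lam) (E i) ≠ ⊥) →
      ∑ i, m i ≤ finrank ℚ (Y.periodSpace lam)

/-- The function `v` on the complex embeddings of the field `E` is a combination of the real
functions `x j` on the embeddings of the fields `L j`: there are rational numbers `t φ (j, ψ)`, for
the embeddings `φ` of `E` and `ψ` of `L j`, invariant under the automorphisms of `ℂ`, odd in `ψ`, and
zero if the fields `E` and `L j` are unrelated, with `v φ = ∑ t φ (j, ψ) * x j ψ`. -/
def IsRealComb {J : Type} [Fintype J] {L : J → Type} [∀ j, Field (L j)] [∀ j, NumberField (L j)]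
    (x : ∀ j, (L j →+* ℂ) → ℝ) {E : Type} [Field E] (v : (E →+* ℂ) → ℝ) : Prop :=
  ∃ t : (E →+* ℂ) → (Σ j, (L j →+* ℂ)) → ℚ,
    (∀ (τ : ℂ ≃+* ℂ) φ y,
      t ((τ : ℂ →+* ℂ).comp φ) ⟨y.1, (τ : ℂ →+* ℂ).comp y.2⟩ = t φ y) ∧
    (∀ φ y, t φ ⟨y.1, ComplexEmbedding.conjugate y.2⟩ = - t φ y) ∧
    (∀ φ y, Unrelated E (L y.1) → t φ y = 0) ∧
    ∀ φ, v φ = ∑ y, (t φ y : ℝ) * x y.1 y.2

/-- The periods are generated by the numbers `x j φ`, for the complex embeddings `φ` of the fields
`L j`: for all nonzero vectors with periods `c` there are `N > 0` and integers `m y` such that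
`c σ ^ N` is, up to an algebraic number, the product of the `x (σ y) ^ m y`, for all automorphisms
`σ`. (If `x j φ` is `(2πi)^(-1/2)` times the period of the eigenvector for `φ` in `H¹` of an abelian
variety with complex multiplication by `L j`, this holds for the varieties whose cohomology is a
direct summand of the cohomology of products of these abelian varieties, up to Tate twists.) -/
def DRBSpace.IsGeneratedBy (V : DRBSpace B) {J : Type} [Fintype J] {L : J → Type}
    [∀ j, Field (L j)] [∀ j, NumberField (L j)] (x : ∀ j, (L j →+* ℂ) → ℂˣ) : Prop :=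
  ∀ (w : B → ℂ) (c : (ℂ ≃+* ℂ) → ℂˣ), w ≠ 0 → V.HasPeriods w c →
    ∃ (N : ℕ) (m : (Σ j, (L j →+* ℂ)) → ℤ), 0 < N ∧ ∀ σ : ℂ ≃+* ℂ,
      IsAlgebraic ℚ (((c σ ^ N : ℂˣ) : ℂ) *
        ((∏ y, x y.1 ((σ : ℂ →+* ℂ).comp y.2) ^ (- m y) : ℂˣ) : ℂ))

/-- The de Rham-Betti classes of all degrees on all the products `X^r × Y^s` are the sums of products
of de Rham-Betti classes on `X^r` and de Rham-Betti classes on `Y^s`. -/
def ClassesOnAllPowers (V : DRBSpace A) (W : DRBSpace B) : Prop :=
  ∀ r s m, ((V.pow r).prod (W.pow s)).classes m = Submodule.span ℚ {z | ∃ i k, i + k = m ∧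
    ∃ x ∈ (V.pow r).classes i, ∃ y ∈ (W.pow s).classes k, z = cross x y}

/-- The formal properties of the motivated classes (or of the algebraic classes, or of the Hodge
classes which are de Rham-Betti classes) of codimension `j` on the varieties `X^r × Y^s`:

* they are de Rham-Betti classes;
* the product of a motivated class on `X^r` and a motivated class on `Y^s` is motivated, where the
  classes on `X^r` are those on `X^r × Y^0`, and the classes on `Y^s` are those on `X^0 × Y^s`;
* if `x` is a rational class of odd degree on `X^r`, and `x ≠ 0`, then the class of `x ⊗ x` on `X^(2 r)`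
  is not motivated (it is not a Hodge class). So if `(2πi)^(m/2) x` is in the de Rham cohomology
  over the algebraic numbers, then not all de Rham-Betti classes on the powers of `X` are
  motivated. -/
structure Motivated (V : DRBSpace A) (W : DRBSpace B) where
  /-- the motivated classes of codimension `j` on `X^r × Y^s` -/
  mot : ∀ r s : ℕ, ℕ → Submodule ℚ (HG.Pow A r × HG.Pow B s → ℚ)
  le : ∀ r s j, mot r s j ≤ ((V.pow r).prod (W.pow s)).classes (2 * j)
  mul : ∀ r s i k (x : HG.Pow A r → ℚ) (y : HG.Pow B s → ℚ), (fun p => x p.1) ∈ mot r 0 i →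
    (fun p => y p.2) ∈ mot 0 s k → cross x y ∈ mot r s (i + k)
  odd : (∀ r j, mot r 0 j = ((V.pow r).prod (W.pow 0)).classes (2 * j)) →
    ∀ r m, ¬ Even m → (V.pow r).classes m = ⊥

/-- All de Rham-Betti classes on all the varieties `X^r × Y^s` are motivated if and only if all de
Rham-Betti classes on all the powers `X^r` and on all the powers `Y^s` are. -/
def MotivatedOnAllPowers (V : DRBSpace A) (W : DRBSpace B) : Prop :=
  ∀ M : Motivated V W,
    (∀ r s j, M.mot r s j = ((V.pow r).prod (W.pow s)).classes (2 * j)) ↔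
      (∀ r j, M.mot r 0 j = ((V.pow r).prod (W.pow 0)).classes (2 * j)) ∧
      ∀ s j, M.mot 0 s j = ((V.pow 0).prod (W.pow s)).classes (2 * j)

/-- A property `P X` holds for all `X` of CM type whose periods are generated by numbers `x j φ`, for
the complex embeddings `φ` of finitely many CM fields `L j`, with `x j (conj φ) * x j φ` algebraic
(the relation of Riemann and Legendre), such that no nonzero vector in the exceptional spaces of the
fields `L j` is a combination of the functions `lam ∘ x j`. -/
def ForAllOutside (lam : ℂˣ → ℝ) (V : Submodule ℚ ((ℂ ≃+* ℂ) → ℝ))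
    (P : ∀ (A : Type) [Fintype A], DRBSpace A → Prop) : Prop :=
  ∀ (J : Type) [Fintype J] (L : J → Type) [∀ j, Field (L j)] [∀ j, NumberField (L j)]
    [∀ j, IsCMField (L j)] (x : ∀ j, (L j →+* ℂ) → ℂˣ),
    (∀ j φ, IsAlgebraic ℚ ((x j (ComplexEmbedding.conjugate φ) : ℂ) * (x j φ : ℂ))) →
    (∀ j, ∀ v ∈ excSpace V (L j), IsRealComb (fun j φ => lam (x j φ)) v → v = 0) →
    ∀ (A : Type) [Fintype A] (X : DRBSpace A), X.IsOfCMType → X.IsGeneratedBy x → P A X

end Pool.Agent.H855.DRB
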