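import Mathlib
import Pool.Agent.H855.HG.AutC
import Pool.Agent.H855.DRB.Defs

/-!
# Algebraic numbers and the automorphisms of the complex numbers
-/

set_option autoImplicit false
set_option linter.unusedSectionVars false

namespace Pool.Agent.H855.DRB

open Module Pool.Agent.H855.HG

/-- An element algebraic over `F` and fixed by all automorphisms of `ℂ` over `F` is in `F`. -/
theorem mem_of_fixed' (F : IntermediateField ℚ ℂ) {x : ℂ} (hx : IsAlgebraic F x)
    (hfix : ∀ σ : ℂ ≃+* ℂ, (∀ a ∈ F, σ a = a) → σ x = x) : x ∈ F := by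
  have _ : IsAlgClosure F (algebraicClosure F ℂ) := algebraicClosure.isAlgClosure F ℂ
  have _ : Normal F (algebraicClosure F ℂ) := IsAlgClosure.normal F _
  have _ : CharZero F := inferInstance
  have _ : Algebra.IsSeparable F (algebraicClosure F ℂ) := inferInstance
  have _ : IsGalois F (algebraicClosure F ℂ) := IsGalois.mk
  let y : algebraicClosure F ℂ := ⟨x, mem_algebraicClosure_iff.2 hx⟩
  have h1 : y ∈ (⊥ : IntermediateField F (algebraicClosure F ℂ)) := by
    rw [InfiniteGalois.mem_bot_iff_fixed]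
    intro τ
    obtain ⟨σ, hσ⟩ := exists_aut_of_closure F τ
    refine Subtype.ext ?_
    rw [← hσ y]
    refine hfix σ fun a ha => ?_
    have h2 := hσ (algebraMap F _ ⟨a, ha⟩)
    rw [τ.commutes] at h2
    exact h2
  obtain ⟨z, hz⟩ := IntermediateField.mem_bot.1 h1
  have h2 : ((z : ℂ)) = x := congrArg Subtype.val hz
  rw [← h2]
  exact z.2

/-- A transcendental number is not a rational function of its square. -/
theorem notMem_adjoin_sq' {K : Type} [Field K] [Algebra K ℂ] {x : ℂ} (hx : Transcendental K x) :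
    x ∉ IntermediateField.adjoin K {x ^ 2} := by
  intro h
  rw [IntermediateField.mem_adjoin_simple_iff] at h
  obtain ⟨r, s, hrs⟩ := h
  have hx0 : x ≠ 0 := fun h0 => hx (by rw [h0]; exact isAlgebraic_zero)
  have hs : Polynomial.aeval (x ^ 2) s ≠ 0 := by
    intro h0
    rw [h0, div_zero] at hrs
    exact hx0 hrs
  have h1 : x * Polynomial.aeval (x ^ 2) s = Polynomial.aeval (x ^ 2) r := by
    nth_rewrite 1 [hrs]
    exact div_mul_cancel₀ _ hs
  let p : Polynomial K := Polynomial.X * Polynomial.expand K 2 s - Polynomial.expand K 2 r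
  have hp : Polynomial.aeval x p = 0 := by
    simp only [p, map_sub, map_mul, Polynomial.aeval_X, Polynomial.expand_aeval]
    rw [h1, sub_self]
  have hp0 : p = 0 := by
    by_contra hne
    exact hx ⟨p, hne, hp⟩
  have h2 : Polynomial.X * Polynomial.expand K 2 s = Polynomial.expand K 2 r := sub_eq_zero.1 hp0
  have hs0 : s ≠ 0 := fun h0 => hs (by rw [h0, map_zero])
  have h3 := congrArg Polynomial.natDegree h2
  rw [Polynomial.natDegree_expand, Polynomial.natDegree_X_mul, Polynomial.natDegree_expand] at h3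
  · omega
  · intro h0
    exact hs0 ((Polynomial.expand_eq_zero two_pos).1 h0)

/-- The automorphism fixes the algebraic numbers. -/
def FixesAlg (σ : ℂ ≃+* ℂ) : Prop := ∀ a : ℂ, IsAlgebraic ℚ a → σ a = a

/-- **A number fixed by all automorphisms of `ℂ` over the algebraic numbers is algebraic.** -/
theorem isAlgebraic_of_fixed {z : ℂ} (h : ∀ σ : ℂ ≃+* ℂ, FixesAlg σ → σ z = z) :
    IsAlgebraic ℚ z := by
  by_contra hz
  let K : IntermediateField ℚ ℂ := algebraicClosure ℚ ℂ
  have _ : Algebra.IsAlgebraic ℚ K := algebraicClosure.isAlgebraic ℚ ℂ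
  have hz' : Transcendental K z := fun h1 => hz (h1.restrictScalars ℚ)
  let F : IntermediateField ℚ ℂ := (IntermediateField.adjoin K {z ^ 2}).restrictScalars ℚ
  have h1 : z ∈ F := by
    refine mem_of_fixed' F ?_ fun σ hσ => h σ fun a ha => ?_
    · let u : F := ⟨z ^ 2, IntermediateField.mem_adjoin_simple_self K _⟩
      refine ⟨Polynomial.X ^ 2 - Polynomial.C u, Polynomial.X_pow_sub_C_ne_zero two_pos u, ?_⟩
      rw [map_sub, map_pow, Polynomial.aeval_X, Polynomial.aeval_C]
      exact sub_self _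
    · exact hσ a ((IntermediateField.adjoin K {z ^ 2}).algebraMap_mem
        ⟨a, mem_algebraicClosure_iff.2 ha⟩)
  exact notMem_adjoin_sq' hz' h1

theorem isAlgebraic_map {z : ℂ} (hz : IsAlgebraic ℚ z) (σ : ℂ ≃+* ℂ) : IsAlgebraic ℚ (σ z) := by
  have h1 : IsAlgebraic ℚ ((RingEquiv.toRingHom σ).toRatAlgHom z) := hz.algHom _
  exact h1

/-- The algebraic numbers as a subgroup. -/
def algUnits : Subgroup ℂˣ where
  carrier := {x | IsAlgebraic ℚ (x : ℂ)}
  mul_mem' := fun {x y} hx hy => by
    change IsAlgebraic ℚ ((x * y : ℂˣ) : ℂ)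
    rw [Units.val_mul]
    exact IsAlgebraic.mul hx hy
  one_mem' := by
    change IsAlgebraic ℚ ((1 : ℂˣ) : ℂ)
    rw [Units.val_one]
    exact isAlgebraic_one
  inv_mem' := fun {x} hx => by
    change IsAlgebraic ℚ ((x⁻¹ : ℂˣ) : ℂ)
    rw [Units.val_inv_eq_inv_val]
    exact IsAlgebraic.inv hx

/-- A torsion-free group of at most the size of the continuum embeds in the real numbers. -/
theorem exists_embedding {M : Type} [AddCommGroup M] [IsAddTorsionFree M]
    (hM : Cardinal.mk M ≤ Cardinal.continuum) : ∃ g : M →+ ℝ, Function.Injective g := by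
  have hcard : Module.rank ℚ (DivisibleHull M) ≤ Module.rank ℚ ℝ := by
    rw [Real.rank_rat_real]
    refine (rank_le_card ℚ _).trans ?_
    have h1 : Function.Surjective (fun p : M × ℕ+ => DivisibleHull.mk p.1 p.2) := by
      intro z
      induction z using DivisibleHull.ind with
      | mk num den => exact ⟨(num, den), rfl⟩
    refine (Cardinal.mk_le_of_surjective h1).trans ?_
    rw [Cardinal.mk_prod, Cardinal.lift_id, Cardinal.lift_id]
    have h4 : Cardinal.mk ℕ+ ≤ Cardinal.continuum :=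
      (Cardinal.mk_le_aleph0).trans Cardinal.aleph0_le_continuum
    calc Cardinal.mk M * Cardinal.mk ℕ+ ≤ Cardinal.continuum * Cardinal.continuum :=
          mul_le_mul' hM h4
      _ = Cardinal.continuum := Cardinal.continuum_mul_self
  obtain ⟨f, hf⟩ := rank_le_iff_exists_linearMap.1 hcard
  exact ⟨f.toAddMonoidHom.comp (DivisibleHull.coeAddMonoidHom M), hf.comp DivisibleHull.coe_injective⟩

/-- **There is a homomorphism with kernel the algebraic numbers.** -/
theorem exists_isLog : ∃ lam : ℂˣ → ℝ, IsLog lam := by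
  have htf : IsAddTorsionFree (Additive (ℂˣ ⧸ algUnits)) := by
    refine ⟨fun n hn a b hab => ?_⟩
    obtain ⟨x, hx⟩ := QuotientGroup.mk_surjective (Additive.toMul a)
    obtain ⟨y, hy⟩ := QuotientGroup.mk_surjective (Additive.toMul b)
    have h1 : (Additive.toMul a) ^ n = (Additive.toMul b) ^ n := congrArg Additive.toMul hab
    rw [← hx, ← hy, ← QuotientGroup.mk_pow, ← QuotientGroup.mk_pow, QuotientGroup.eq] at h1
    have h2 : IsAlgebraic ℚ (((x ^ n)⁻¹ * y ^ n : ℂˣ) : ℂ) := h1
    have h3 : (((x ^ n)⁻¹ * y ^ n : ℂˣ) : ℂ) = ((x⁻¹ * y : ℂˣ) : ℂ) ^ n := by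
      rw [← Units.val_pow_eq_pow_val, mul_pow, inv_pow]
    rw [h3] at h2
    have h4 := IsAlgebraic.of_pow (Nat.pos_of_ne_zero hn) h2
    change Additive.ofMul (Additive.toMul a) = Additive.ofMul (Additive.toMul b)
    rw [← hx, ← hy]
    exact congrArg Additive.ofMul (QuotientGroup.eq.2 h4)
  have hQ : Cardinal.mk (Additive (ℂˣ ⧸ algUnits)) ≤ Cardinal.continuum := by
    have h3 : Function.Surjective (fun x : ℂˣ =>
        (Additive.ofMul (QuotientGroup.mk x) : Additive (ℂˣ ⧸ algUnits))) :=
      fun a => by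
        obtain ⟨x, hx⟩ := QuotientGroup.mk_surjective (Additive.toMul a)
        exact ⟨x, congrArg Additive.ofMul hx⟩
    refine (Cardinal.mk_le_of_surjective h3).trans ?_
    refine (Cardinal.mk_le_of_injective (f := ((↑) : ℂˣ → ℂ)) Units.val_injective).trans ?_
    exact Cardinal.mk_complex.le
  obtain ⟨g, hg⟩ := exists_embedding hQ
  refine ⟨fun x => g (Additive.ofMul (QuotientGroup.mk x)), ⟨fun x y => ?_, fun x => ?_⟩⟩
  · exact map_add g (Additive.ofMul (QuotientGroup.mk x)) (Additive.ofMul (QuotientGroup.mk y))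
  · have h1 : g (Additive.ofMul (QuotientGroup.mk x)) = 0 ↔
        (Additive.ofMul (QuotientGroup.mk x) : Additive (ℂˣ ⧸ algUnits)) = 0 :=
      map_eq_zero_iff g hg
    rw [h1]
    change ((QuotientGroup.mk x : ℂˣ ⧸ algUnits) = 1) ↔ _
    rw [QuotientGroup.eq_one_iff]
    rfl

variable {lam : ℂˣ → ℝ}

theorem IsLog.one (h : IsLog lam) : lam 1 = 0 := by
  have h1 := h.mul 1 1
  rw [mul_one] at h1
  linarith

theorem IsLog.inv (h : IsLog lam) (x : ℂˣ) : lam x⁻¹ = - lam x := by
  have h1 := h.mul x⁻¹ x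
  rw [inv_mul_cancel, h.one] at h1
  linarith

theorem IsLog.pow (h : IsLog lam) (x : ℂˣ) (n : ℕ) : lam (x ^ n) = n * lam x := by
  induction n with
  | zero => rw [pow_zero, h.one, Nat.cast_zero, zero_mul]
  | succ n ih =>
    rw [pow_succ, h.mul, ih]
    push_cast
    ring

theorem IsLog.zpow (h : IsLog lam) (x : ℂˣ) (n : ℤ) : lam (x ^ n) = n * lam x := by
  cases n with
  | ofNat n =>
    rw [Int.ofNat_eq_natCast, zpow_natCast, h.pow]
    push_cast
    rfl
  | negSucc n =>
    rw [zpow_negSucc, h.inv, h.pow, Int.cast_negSucc]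
    ring

theorem IsLog.prod (h : IsLog lam) {ι : Type} [Fintype ι] (f : ι → ℂˣ) :
    lam (∏ i, f i) = ∑ i, lam (f i) := by
  classical
  have h1 : ∀ s : Finset ι, lam (∏ i ∈ s, f i) = ∑ i ∈ s, lam (f i) := by
    intro s
    induction s using Finset.induction_on with
    | empty => rw [Finset.prod_empty, Finset.sum_empty, h.one]
    | insert a s ha ih => rw [Finset.prod_insert ha, Finset.sum_insert ha, h.mul, ih]
  exact h1 _

theorem IsLog.eq_iff (h : IsLog lam) (x y : ℂˣ) :
    lam x = lam y ↔ IsAlgebraic ℚ ((x * y⁻¹ : ℂˣ) : ℂ) := by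
  rw [← h.zero_iff, h.mul, h.inv]
  constructor
  · intro h1
    rw [h1]
    ring
  · intro h1
    linarith

end Pool.Agent.H855.DRB
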