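import Mathlib
import Pool.Agent.H855.HG.Kunneth
import Pool.Agent.H855.DRB.Alg

/-!
# De Rham-Betti classes on a product
-/

set_option autoImplicit false
set_option linter.unusedSectionVars false

namespace Pool.Agent.H855.DRB

open Matrix Module Pool.Agent.H855.HG

section basic

variable {B B' : Type} [Fintype B] [Fintype B']

theorem root_ne_zero : root ≠ 0 := Complex.exp_ne_zero _

theorem isAlg_sum {ι : Type} (s : Finset ι) (f : ι → ℂ) (h : ∀ i ∈ s, IsAlgebraic ℚ (f i)) :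
    IsAlgebraic ℚ (∑ i ∈ s, f i) :=
  Finset.sum_induction f (IsAlgebraic ℚ) (fun _ _ => IsAlgebraic.add) isAlgebraic_zero h

theorem isAlg_rat (q : ℚ) : IsAlgebraic ℚ (q : ℂ) := isAlgebraic_algebraMap q

theorem cmp_mulVec (V : DRBSpace B) (w : B → ℂ) (b : B) :
    (V.cmp *ᵥ w) b = root ^ V.deg b * (V.per *ᵥ w) b := by
  simp only [DRBSpace.cmp, Matrix.mulVec, dotProduct]
  rw [Finset.mul_sum]
  exact Finset.sum_congr rfl fun _ _ => by ring

theorem cmp_injective (V : DRBSpace B) (w : B → ℂ) (h : V.cmp *ᵥ w = 0) : w = 0 := by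
  refine V.injective w ?_
  funext b
  have h1 := congrFun h b
  rw [cmp_mulVec, Pi.zero_apply] at h1
  exact (mul_eq_zero.1 h1).resolve_left (pow_ne_zero _ root_ne_zero)

theorem cmp_graded (V : DRBSpace B) (b b' : B) (h : V.deg b ≠ V.deg b') : V.cmp b b' = 0 := by
  rw [DRBSpace.cmp, V.graded b b' h, mul_zero]

theorem prod_cmp (V : DRBSpace B') (W : DRBSpace B) :
    (V.prod W).cmp = fun p q => V.cmp p.1 q.1 * W.cmp p.2 q.2 := by
  funext p q
  change root ^ (V.deg p.1 + W.deg p.2) * (V.per p.1 q.1 * W.per p.2 q.2) =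
    root ^ V.deg p.1 * V.per p.1 q.1 * (root ^ W.deg p.2 * W.per p.2 q.2)
  rw [pow_add]
  ring

theorem prod_cross (V : DRBSpace B') (W : DRBSpace B) (u : B' → ℂ) (v : B → ℂ) (p : B' × B) :
    ((V.prod W).cmp *ᵥ cross u v) p = (V.cmp *ᵥ u) p.1 * (W.cmp *ᵥ v) p.2 := by
  rw [prod_cmp]
  simp only [Matrix.mulVec, dotProduct, cross]
  rw [Fintype.sum_prod_type, Finset.sum_mul]
  refine Finset.sum_congr rfl fun a' _ => ?_
  rw [Finset.mul_sum]
  exact Finset.sum_congr rfl fun b' _ => by ring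

theorem cmp_sum (V : DRBSpace B) {ι : Type} [Fintype ι] (t : ι → ℂ) (w : ι → B → ℂ) (b : B) :
    (V.cmp *ᵥ fun b => ∑ k, t k * w k b) b = ∑ k, t k * (V.cmp *ᵥ w k) b := by
  simp only [Matrix.mulVec, dotProduct, Finset.mul_sum]
  rw [Finset.sum_comm]
  exact Finset.sum_congr rfl fun k _ => Finset.sum_congr rfl fun b' _ => by ring

/-- The coefficients of a combination of algebraic vectors. -/
theorem alg_of_comb {ι : Type} [Fintype ι] (z : ι → B → ℂ) (hz : ∀ k a, IsAlgebraic ℚ (z k a))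
    (hli : ∀ t : ι → ℂ, (∀ a, ∑ k, t k * z k a = 0) → ∀ k, t k = 0) (T : ι → ℂ)
    (hT : ∀ a, IsAlgebraic ℚ (∑ k, T k * z k a)) (k : ι) : IsAlgebraic ℚ (T k) := by
  refine isAlgebraic_of_fixed fun σ hσ => ?_
  have h1 := hli (fun k => σ (T k) - T k) (fun a => ?_) k
  · exact sub_eq_zero.1 h1
  have h2 := hσ _ (hT a)
  rw [map_sum] at h2
  have h3 : ∑ k, (σ (T k) - T k) * z k a = ∑ k, σ (T k * z k a) - ∑ k, T k * z k a := by
    rw [← Finset.sum_sub_distrib]
    refine Finset.sum_congr rfl fun k _ => ?_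
    rw [map_mul, hσ _ (hz k a)]
    ring
  rw [h3, h2, sub_self]

/-- There is a basis of vectors with periods. -/
theorem exists_basis {V : DRBSpace B} (G : Set ((ℂ ≃+* ℂ) → ℂˣ))
    (hV : Submodule.span ℂ {w | ∃ c ∈ G, V.HasPeriods w c} = ⊤) :
    ∃ (ι : Type) (_ : Fintype ι) (e : Basis ι ℂ (B → ℂ))
    (d : ι → (ℂ ≃+* ℂ) → ℂˣ), ∀ i, d i ∈ G ∧ V.HasPeriods (e i) (d i) := by
  classical
  obtain ⟨b, hb, hspan, hli⟩ := exists_linearIndependent ℂ {w | ∃ c ∈ G, V.HasPeriods w c}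
  have hfin : Finite b := hli.finite
  have hft : Fintype b := Fintype.ofFinite b
  have htop : ⊤ ≤ Submodule.span ℂ (Set.range ((↑) : b → B → ℂ)) := by
    rw [Subtype.range_coe, hspan]
    exact hV.ge
  choose d hdG hd using fun i : b => hb i.2
  refine ⟨b, hft, Basis.mk hli htop, d, fun i => ?_⟩
  rw [Basis.mk_apply]
  exact ⟨hdG i, hd i⟩

theorem indep_map {ι : Type} [Fintype ι] (e : Basis ι ℂ (B → ℂ)) (σ : ℂ ≃+* ℂ) (c : ι → ℂ)
    (hc : ∀ a, ∑ k, c k * σ (e k a) = 0) (k : ι) : c k = 0 := by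
  have h1 : ∑ k, σ.symm (c k) • e k = 0 := by
    funext a
    have h2 := congrArg σ.symm (hc a)
    rw [map_sum, map_zero] at h2
    rw [Finset.sum_apply, Pi.zero_apply, ← h2]
    refine Finset.sum_congr rfl fun k _ => ?_
    rw [map_mul, RingEquiv.symm_apply_apply]
    rfl
  have h2 := Fintype.linearIndependent_iff.1 e.linearIndependent _ h1 k
  exact (map_eq_zero σ.symm).1 h2

theorem indep_per {V : DRBSpace B} {ι : Type} [Fintype ι] (e : Basis ι ℂ (B → ℂ))
    (d : ι → ℂˣ) (σ : ℂ ≃+* ℂ) (t : ι → ℂ)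
    (ht : ∀ a, ∑ k, t k * ((d k : ℂ) * (V.cmp *ᵥ fun b => σ (e k b)) a) = 0) (k : ι) : t k = 0 := by
  have h1 : (fun b => ∑ k, (t k * d k) * σ (e k b)) = 0 := by
    refine cmp_injective V _ ?_
    funext a
    rw [cmp_sum V (fun k => t k * d k) (fun k b => σ (e k b)), Pi.zero_apply, ← ht a]
    exact Finset.sum_congr rfl fun k _ => by ring
  have h2 := indep_map e σ (fun k => t k * d k) (fun a => congrFun h1 a) k
  exact (mul_eq_zero.1 h2).resolve_right (d k).ne_zero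

/-- The coordinates of an algebraic vector are algebraic. -/
theorem coord_alg {ι : Type} [Fintype ι] (e : Basis ι ℂ (B → ℂ))
    (he : ∀ k a, IsAlgebraic ℚ (e k a)) {w : B → ℂ} (hw : ∀ a, IsAlgebraic ℚ (w a)) (k : ι) :
    IsAlgebraic ℚ (e.repr w k) := by
  refine alg_of_comb (fun k => e k) he (fun t ht => indep_map e (RingEquiv.refl ℂ) t ht)
    (fun k => e.repr w k) (fun a => ?_) k
  have h1 := congrFun (e.sum_repr w) a
  rw [Finset.sum_apply] at h1
  have h2 : ∑ k, e.repr w k * e k a = w a := h1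
  rw [h2]
  exact hw a

/-- The periods of a nonzero vector are the periods of an element of the basis. -/
theorem period_of_basis {V : DRBSpace B} {ι : Type} [Fintype ι] (e : Basis ι ℂ (B → ℂ))
    (d : ι → (ℂ ≃+* ℂ) → ℂˣ) (he : ∀ i, V.HasPeriods (e i) (d i)) {w : B → ℂ}
    {c : (ℂ ≃+* ℂ) → ℂˣ} (hw : w ≠ 0) (h : V.HasPeriods w c) :
    ∃ k, ∀ σ, IsAlgebraic ℚ ((c σ * (d k σ)⁻¹ : ℂˣ) : ℂ) := by
  classical
  have ha : ∀ k, IsAlgebraic ℚ (e.repr w k) := fun k => coord_alg e (fun k => (he k).1) h.1 k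
  have hex : ∃ k, e.repr w k ≠ 0 := by
    by_contra h0
    push Not at h0
    apply hw
    rw [← e.sum_repr w]
    exact Finset.sum_eq_zero fun k _ => by rw [h0 k, zero_smul]
  obtain ⟨k, hk⟩ := hex
  refine ⟨k, fun σ => ?_⟩
  have hsum : ∀ a, σ (w a) = ∑ k, σ (e.repr w k) * σ (e k a) := by
    intro a
    have h1 := congrArg σ (congrFun (e.sum_repr w) a)
    rw [Finset.sum_apply, map_sum] at h1
    rw [← h1]
    exact Finset.sum_congr rfl fun k _ => map_mul σ _ _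
  let T : ι → ℂ := fun k => σ (e.repr w k) * ((c σ : ℂ) * ((d k σ : ℂ))⁻¹)
  have hT : ∀ k, IsAlgebraic ℚ (T k) := by
    refine alg_of_comb (fun k a => (d k σ : ℂ) * (V.cmp *ᵥ fun b => σ (e k b)) a)
      (fun k a => (he k).2 σ a) (fun t ht => indep_per e (fun k => d k σ) σ t ht) T (fun a => ?_)
    have h2 : ∑ k, T k * ((d k σ : ℂ) * (V.cmp *ᵥ fun b => σ (e k b)) a) =
        (c σ : ℂ) * (V.cmp *ᵥ fun b => σ (w b)) a := by
      have h3 : (fun b => σ (w b)) = fun b => ∑ k, σ (e.repr w k) * σ (e k b) := funext hsum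
      rw [h3, cmp_sum V (fun k => σ (e.repr w k)) (fun k b => σ (e k b)), Finset.mul_sum]
      refine Finset.sum_congr rfl fun k _ => ?_
      have h4 : ((d k σ : ℂ))⁻¹ * (d k σ : ℂ) = 1 := inv_mul_cancel₀ (d k σ).ne_zero
      change σ (e.repr w k) * ((c σ : ℂ) * ((d k σ : ℂ))⁻¹) *
        ((d k σ : ℂ) * (V.cmp *ᵥ fun b => σ (e k b)) a) = _
      linear_combination (σ (e.repr w k) * (c σ : ℂ) * (V.cmp *ᵥ fun b => σ (e k b)) a) * h4
    rw [h2]
    exact h.2 σ a
  have hne : σ (e.repr w k) ≠ 0 := (map_ne_zero σ).2 hk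
  have h5 : ((c σ * (d k σ)⁻¹ : ℂˣ) : ℂ) = T k * (σ (e.repr w k))⁻¹ := by
    rw [Units.val_mul, Units.val_inv_eq_inv_val]
    change _ = σ (e.repr w k) * ((c σ : ℂ) * ((d k σ : ℂ))⁻¹) * (σ (e.repr w k))⁻¹
    field_simp
  rw [h5]
  exact (hT k).mul (isAlgebraic_map (ha k) σ).inv

end basic

section kunneth

variable {B B' : Type} [Fintype B] [Fintype B'] {V : DRBSpace B'} {W : DRBSpace B}

/-- **The theorem of Künneth and the periods.** -/
theorem kunneth (hV : V.IsOfCMType)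
    (hd : ∀ (x : B' → ℂ) (y : B → ℂ) (c : (ℂ ≃+* ℂ) → ℂˣ), x ≠ 0 → y ≠ 0 → V.HasPeriods x c →
      W.HasPeriods y (fun σ => (c σ)⁻¹) → ∀ σ, IsAlgebraic ℚ (c σ : ℂ)) (ω : B' × B → ℚ)
    (hω : ∀ p, IsAlgebraic ℚ (((V.prod W).cmp *ᵥ cv ω) p)) :
    (∀ b a, IsAlgebraic ℚ ((V.cmp *ᵥ cv fun a => ω (a, b)) a)) ∧
      ∀ a b, IsAlgebraic ℚ ((W.cmp *ᵥ cv fun b => ω (a, b)) b) := by
  classical
  have hV' : Submodule.span ℂ {w | ∃ c ∈ (Set.univ : Set ((ℂ ≃+* ℂ) → ℂˣ)),
      V.HasPeriods w c} = ⊤ := by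
    have h1 : {w | ∃ c ∈ (Set.univ : Set ((ℂ ≃+* ℂ) → ℂˣ)), V.HasPeriods w c} =
        {w | ∃ c, V.HasPeriods w c} := by
      ext w
      simp
    rw [h1]
    exact hV
  obtain ⟨ι, hι, e, d, he⟩ := exists_basis _ hV'
  let y : ι → B → ℂ := fun k b => e.repr (fun a => (ω (a, b) : ℂ)) k
  have hyalg : ∀ k b, IsAlgebraic ℚ (y k b) := fun k b =>
    coord_alg e (fun k => (he k).2.1) (fun a => isAlg_rat _) k
  have hy : ∀ a b, (ω (a, b) : ℂ) = ∑ k, y k b * e k a := by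
    intro a b
    have h1 := congrFun (e.sum_repr (fun a => (ω (a, b) : ℂ))) a
    rw [Finset.sum_apply] at h1
    exact h1.symm
  have hσ : ∀ (σ : ℂ ≃+* ℂ) a b, (ω (a, b) : ℂ) = ∑ k, σ (y k b) * σ (e k a) := by
    intro σ a b
    have h1 := congrArg σ (hy a b)
    rw [map_ratCast, map_sum] at h1
    rw [h1]
    exact Finset.sum_congr rfl fun k _ => map_mul σ _ _
  have htot : ∀ (σ : ℂ ≃+* ℂ) a b, ((V.prod W).cmp *ᵥ cv ω) (a, b) =
      ∑ k, (V.cmp *ᵥ fun a => σ (e k a)) a * (W.cmp *ᵥ fun b => σ (y k b)) b := by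
    intro σ a b
    have h1 : cv ω = fun p => ∑ k, (1 : ℂ) * cross (fun a => σ (e k a)) (fun b => σ (y k b)) p := by
      funext p
      change ((ω (p.1, p.2) : ℚ) : ℂ) = _
      rw [hσ σ]
      refine Finset.sum_congr rfl fun k _ => ?_
      change _ = 1 * (σ (e k p.1) * σ (y k p.2))
      ring
    rw [h1, cmp_sum (V.prod W) (fun _ => (1 : ℂ))
      (fun k => cross (fun a => σ (e k a)) (fun b => σ (y k b)))]
    refine Finset.sum_congr rfl fun k _ => ?_
    rw [prod_cross, one_mul]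
  have hper : ∀ k, W.HasPeriods (y k) (fun σ => (d k σ)⁻¹) := by
    refine fun k => ⟨hyalg k, fun σ b => ?_⟩
    refine alg_of_comb (fun k a => (d k σ : ℂ) * (V.cmp *ᵥ fun b => σ (e k b)) a)
      (fun k a => (he k).2.2 σ a) (fun t ht => indep_per e (fun k => d k σ) σ t ht)
      (fun k => (((d k σ)⁻¹ : ℂˣ) : ℂ) * (W.cmp *ᵥ fun b => σ (y k b)) b) (fun a => ?_) k
    have h1 := hω (a, b)
    rw [htot σ] at h1
    convert h1 using 1
    refine Finset.sum_congr rfl fun k _ => ?_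
    rw [Units.val_inv_eq_inv_val]
    have h4 : ((d k σ : ℂ))⁻¹ * (d k σ : ℂ) = 1 := inv_mul_cancel₀ (d k σ).ne_zero
    linear_combination ((W.cmp *ᵥ fun b => σ (y k b)) b * (V.cmp *ᵥ fun b => σ (e k b)) a) * h4
  have hdalg : ∀ k, y k ≠ 0 → ∀ σ, IsAlgebraic ℚ (d k σ : ℂ) := fun k hk =>
    hd (e k) (y k) (d k) (e.ne_zero k) hk (he k).2 (hper k)
  refine ⟨fun b a => ?_, fun a b => ?_⟩
  · have h1 : cv (fun a => ω (a, b)) = fun a => ∑ k, y k b * e k a := by
      funext a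
      exact hy a b
    rw [h1, cmp_sum V (fun k => y k b) (fun k => e k)]
    refine isAlg_sum _ _ fun k _ => ?_
    by_cases hyk : y k = 0
    · rw [hyk, Pi.zero_apply, zero_mul]
      exact isAlgebraic_zero
    · have h2 := (he k).2.2 (RingEquiv.refl ℂ) a
      have h3 := hdalg k hyk (RingEquiv.refl ℂ)
      have h4 : (V.cmp *ᵥ e k) a = ((d k (RingEquiv.refl ℂ) : ℂ))⁻¹ *
          ((d k (RingEquiv.refl ℂ) : ℂ) * (V.cmp *ᵥ e k) a) := by
        rw [← mul_assoc, inv_mul_cancel₀ (d k _).ne_zero, one_mul]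
      rw [h4]
      exact (hyalg k b).mul (h3.inv.mul h2)
  · have h1 : cv (fun b => ω (a, b)) = fun b => ∑ k, e k a * y k b := by
      funext b
      refine (hy a b).trans (Finset.sum_congr rfl fun k _ => mul_comm _ _)
    rw [h1, cmp_sum W (fun k => e k a) (fun k => y k)]
    refine isAlg_sum _ _ fun k _ => ?_
    by_cases hyk : y k = 0
    · rw [hyk, Matrix.mulVec_zero, Pi.zero_apply, mul_zero]
      exact isAlgebraic_zero
    · have h2 := (hper k).2 (RingEquiv.refl ℂ) b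
      have h3 := hdalg k hyk (RingEquiv.refl ℂ)
      have h4 : (W.cmp *ᵥ y k) b = (d k (RingEquiv.refl ℂ) : ℂ) *
          ((((d k (RingEquiv.refl ℂ))⁻¹ : ℂˣ) : ℂ) * (W.cmp *ᵥ y k) b) := by
        rw [Units.val_inv_eq_inv_val, ← mul_assoc, mul_inv_cancel₀ (d k _).ne_zero, one_mul]
      rw [h4]
      exact ((he k).2.1 a).mul (h3.mul h2)

/-- The component of degree `m` of a class. -/
theorem comp_alg (W : DRBSpace B) {x : B → ℚ} (hx : ∀ b, IsAlgebraic ℚ ((W.cmp *ᵥ cv x) b)) (m : ℕ) :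
    ∀ b, IsAlgebraic ℚ ((W.cmp *ᵥ cv (HG.comp W.deg m x)) b) := by
  intro b
  by_cases hb : W.deg b = m
  · have h1 : (W.cmp *ᵥ cv (HG.comp W.deg m x)) b = (W.cmp *ᵥ cv x) b := by
      change ∑ c, W.cmp b c * ((HG.comp W.deg m x c : ℚ) : ℂ) = ∑ c, W.cmp b c * (x c : ℂ)
      refine Finset.sum_congr rfl fun c _ => ?_
      by_cases hc : W.deg c = m
      · rw [HG.comp, if_pos hc]
      · rw [cmp_graded W b c (fun h => hc (by rw [← h, hb])), zero_mul, zero_mul]
    rw [h1]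
    exact hx b
  · have h1 : (W.cmp *ᵥ cv (HG.comp W.deg m x)) b = 0 := by
      change ∑ c, W.cmp b c * ((HG.comp W.deg m x c : ℚ) : ℂ) = 0
      refine Finset.sum_eq_zero fun c _ => ?_
      by_cases hc : W.deg c = m
      · rw [cmp_graded W b c (fun h => hb (by rw [h, hc])), zero_mul]
      · rw [HG.comp, if_neg hc, Rat.cast_zero, mul_zero]
    rw [h1]
    exact isAlgebraic_zero

theorem cross_classes {i k : ℕ} {x : B' → ℚ} (hx : x ∈ V.classes i) {y : B → ℚ}
    (hy : y ∈ W.classes k) : cross x y ∈ (V.prod W).classes (i + k) := by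
  refine ⟨fun p => ?_, fun p hp => ?_⟩
  · have h1 : cv (cross x y) = cross (cv x) (cv y) := by
      funext q
      exact Rat.cast_mul _ _
    rw [h1, prod_cross]
    exact (hx.1 p.1).mul (hy.1 p.2)
  · change x p.1 * y p.2 = 0
    by_cases h1 : V.deg p.1 = i
    · by_cases h2 : W.deg p.2 = k
      · exact absurd (by rw [← h1, ← h2]; rfl) hp
      · rw [hy.2 _ h2, mul_zero]
    · rw [hx.2 _ h1, zero_mul]

/-- The classes on the product are the sums of products of classes. -/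
theorem classes_prod (hV : V.IsOfCMType)
    (hd : ∀ (x : B' → ℂ) (y : B → ℂ) (c : (ℂ ≃+* ℂ) → ℂˣ), x ≠ 0 → y ≠ 0 → V.HasPeriods x c →
      W.HasPeriods y (fun σ => (c σ)⁻¹) → ∀ σ, IsAlgebraic ℚ (c σ : ℂ)) (j : ℕ) :
    (V.prod W).classes j = Submodule.span ℚ {z | ∃ i k, i + k = j ∧
      ∃ x ∈ V.classes i, ∃ y ∈ W.classes k, z = cross x y} := by
  classical
  refine le_antisymm ?_ (Submodule.span_le.2 ?_)
  swap
  · rintro _ ⟨i, k, rfl, x, hx, y, hy, rfl⟩
    exact cross_classes hx hy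
  intro ω hω
  obtain ⟨h1, h2⟩ := hω
  obtain ⟨hcol, hrow⟩ := kunneth hV hd ω h1
  let c : ℕ → B' × B → ℚ := fun m p => if V.deg p.1 = m then ω p else 0
  have hsum : ω = ∑ m ∈ Finset.range (j + 1), c m := by
    funext p
    rw [Finset.sum_apply]
    by_cases hp : V.deg p.1 + W.deg p.2 = j
    · rw [Finset.sum_eq_single (V.deg p.1)]
      · exact (if_pos rfl).symm
      · intro m _ hm
        exact if_neg (Ne.symm hm)
      · intro h
        exact absurd (Finset.mem_range.2 (by omega)) h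
    · have h3 : ω p = 0 := h2 p hp
      rw [h3]
      refine (Finset.sum_eq_zero fun m _ => ?_).symm
      change (if V.deg p.1 = m then ω p else 0) = 0
      rw [h3, ite_self]
  rw [hsum]
  refine Submodule.sum_mem _ fun m hm => ?_
  have hm' : m ≤ j := by
    have := Finset.mem_range.1 hm
    omega
  have hc1 : ∀ b, (fun a => c m (a, b)) ∈ V.classes m := fun b =>
    ⟨comp_alg V (hcol b) m, fun a ha => if_neg ha⟩
  have hc2 : ∀ a, (fun b => c m (a, b)) ∈ W.classes (j - m) := by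
    intro a
    by_cases ha : V.deg a = m
    · have h3 : (fun b => c m (a, b)) = fun b => ω (a, b) := by
        funext b
        exact if_pos ha
      rw [h3]
      refine ⟨hrow a, fun b hb => h2 (a, b) fun h => hb ?_⟩
      have h4 : V.deg a + W.deg b = j := h
      omega
    · have h3 : (fun b => c m (a, b)) = 0 := by
        funext b
        exact if_neg ha
      rw [h3]
      exact Submodule.zero_mem _
  have h3 := mem_span_of_rows _ _ (c m) hc1 hc2
  refine Submodule.span_mono ?_ h3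
  rintro _ ⟨x, hx, y, hy, rfl⟩
  exact ⟨m, j - m, by omega, x, hx, y, hy, rfl⟩

end kunneth

end Pool.Agent.H855.DRB
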