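import Mathlib
import Pool.Agent.H855.DP.Space
import Pool.Agent.H855.DRB.Kunneth

/-!
# The periods of the powers of a variety
-/

set_option autoImplicit false
set_option linter.unusedSectionVars false

namespace Pool.Agent.H855.DRB

open Matrix Module Pool.Agent.H855.HG Pool.Agent.H855.CM Pool.Agent.H855.DP NumberField

section kpow

variable {B : Type} [Fintype B]

/-- The action of a matrix on the powers. -/
noncomputable def kpow (M : Matrix B B ℂ) : ∀ s, Matrix (HG.Pow B s) (HG.Pow B s) ℂ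
  | 0 => fun _ _ => 1
  | s + 1 => fun (p q : B × HG.Pow B s) => M p.1 q.1 * kpow M s p.2 q.2

theorem kpow_succ_mulVec (M : Matrix B B ℂ) (s : ℕ) (v : HG.Pow B (s + 1) → ℂ) (a : B)
    (p : HG.Pow B s) : (kpow M (s + 1) *ᵥ v) (a, p) =
      (M *ᵥ fun a' => (kpow M s *ᵥ fun p' => v (a', p')) p) a := by
  change ∑ q : B × HG.Pow B s, M a q.1 * kpow M s p q.2 * v q = _
  simp only [Matrix.mulVec, dotProduct]
  rw [Fintype.sum_prod_type]
  refine Finset.sum_congr rfl fun a' _ => ?_
  rw [Finset.mul_sum]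
  exact Finset.sum_congr rfl fun b' _ => by ring

theorem kpow_fix {M : Matrix B B ℂ} (hM : ∀ v, M *ᵥ v = v) (s : ℕ) (v : HG.Pow B s → ℂ) :
    kpow M s *ᵥ v = v := by
  induction s with
  | zero =>
    funext p
    change ∑ q : Unit, (1 : ℂ) * v q = v p
    rw [Fintype.sum_unique, one_mul]
    rfl
  | succ s ih =>
    funext p
    have h1 := kpow_succ_mulVec M s v p.1 p.2
    have h2 : (fun a' => (kpow M s *ᵥ fun p' => v (a', p')) p.2) = fun a' => v (a', p.2) := by
      funext a'
      rw [ih]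
    rw [h2, hM] at h1
    exact h1

theorem kpow_mul (M N : Matrix B B ℂ) (s : ℕ) (v : HG.Pow B s → ℂ) :
    kpow (M * N) s *ᵥ v = kpow M s *ᵥ (kpow N s *ᵥ v) := by
  induction s with
  | zero =>
    funext p
    change ∑ q : Unit, (1 : ℂ) * v q = ∑ q : Unit, (1 : ℂ) * ∑ q : Unit, (1 : ℂ) * v q
    simp
  | succ s ih =>
    funext p
    have h1 := kpow_succ_mulVec (M * N) s v p.1 p.2
    have h2 := kpow_succ_mulVec M s (kpow N (s + 1) *ᵥ v) p.1 p.2
    refine h1.trans (Eq.trans ?_ h2.symm)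
    rw [← Matrix.mulVec_mulVec]
    congr 2
    funext a'
    have h3 : (fun p' => (kpow N (s + 1) *ᵥ v) (a', p')) =
        fun p' => (N *ᵥ fun a'' => (kpow N s *ᵥ fun p'' => v (a'', p'')) p') a' := by
      funext p'
      exact kpow_succ_mulVec N s v a' p'
    rw [h3]
    have h4 : (kpow M s *ᵥ fun p' => (N *ᵥ fun a'' =>
        (kpow N s *ᵥ fun p'' => v (a'', p'')) p') a') p.2 =
        (N *ᵥ fun a'' => (kpow M s *ᵥ (kpow N s *ᵥ fun p'' => v (a'', p''))) p.2) a' := by
      change ∑ q, kpow M s p.2 q * ∑ c, N a' c * (kpow N s *ᵥ fun p'' => v (c, p'')) q =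
        ∑ c, N a' c * ∑ q, kpow M s p.2 q * (kpow N s *ᵥ fun p'' => v (c, p'')) q
      simp only [Finset.mul_sum]
      rw [Finset.sum_comm]
      exact Finset.sum_congr rfl fun c _ => Finset.sum_congr rfl fun q _ => by ring
    rw [h4]
    congr 2
    funext a''
    rw [ih]

theorem kpow_map (τ : ℂ ≃+* ℂ) (M : Matrix B B ℂ) (s : ℕ) :
    (kpow M s).map τ = kpow (M.map τ) s := by
  induction s with
  | zero =>
    ext a b
    exact map_one τ
  | succ s ih =>
    ext a b
    change τ (M a.1 b.1 * kpow M s a.2 b.2) = τ (M a.1 b.1) * kpow (M.map τ) s a.2 b.2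
    rw [map_mul, ← ih]
    rfl

theorem pow_cmp (Y : DRBSpace B) (s : ℕ) : (Y.pow s).cmp = kpow Y.cmp s := by
  induction s with
  | zero =>
    ext a b
    change root ^ 0 * 1 = (1 : ℂ)
    rw [pow_zero, one_mul]
  | succ s ih =>
    change (Y.prod (Y.pow s)).cmp = _
    rw [prod_cmp, ih]
    rfl

theorem map_mulVec (M : Matrix B B ℂ) (w : B → ℂ) (σ : ℂ ≃+* ℂ) (b : B) :
    σ ((M *ᵥ w) b) = (M.map σ *ᵥ fun c => σ (w c)) b := by
  simp only [Matrix.mulVec, dotProduct, Matrix.map_apply, map_sum, map_mul]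

end kpow

section gen

variable {B : Type} [Fintype B] [DecidableEq B]

theorem det_isUnit (Y : DRBSpace B) : IsUnit Y.cmp.det := by
  rw [← Matrix.isUnit_iff_isUnit_det, ← Matrix.mulVec_injective_iff_isUnit]
  intro v w h
  have h1 : Y.cmp *ᵥ (v - w) = 0 := by
    rw [Matrix.mulVec_sub]
    exact sub_eq_zero.2 h
  exact sub_eq_zero.1 (cmp_injective Y _ h1)

/-- A block diagonal matrix. -/
def IsGraded (Y : DRBSpace B) (M : Matrix B B ℂ) : Prop :=
  ∀ a b, Y.deg a ≠ Y.deg b → M a b = 0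

theorem inv_graded (Y : DRBSpace B) : IsGraded Y Y.cmp⁻¹ := by
  intro a b hab
  have hC : Y.cmp * Y.cmp⁻¹ = 1 := Matrix.mul_nonsing_inv _ (det_isUnit Y)
  let u : B → ℂ := fun c => Y.cmp⁻¹ c b
  let u' : B → ℂ := fun c => if Y.deg c = Y.deg b then u c else 0
  have h1 : Y.cmp *ᵥ (u - u') = 0 := by
    funext c
    by_cases hc : Y.deg c = Y.deg b
    · change ∑ d, Y.cmp c d * (u d - u' d) = 0
      refine Finset.sum_eq_zero fun d _ => ?_
      by_cases hd : Y.deg d = Y.deg b
      · have h2 : u' d = u d := if_pos hd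
        rw [h2, sub_self, mul_zero]
      · rw [cmp_graded Y c d (fun h => hd (by rw [← h, hc])), zero_mul]
    · have h2 : ∑ d, Y.cmp c d * u d = 0 := by
        have h3 := congrFun (congrFun hC c) b
        rw [Matrix.one_apply_ne (fun h => hc (by rw [h]))] at h3
        exact h3
      have h4 : ∑ d, Y.cmp c d * u' d = 0 := by
        refine Finset.sum_eq_zero fun d _ => ?_
        by_cases hd : Y.deg d = Y.deg b
        · rw [cmp_graded Y c d (fun h => hc (by rw [h, hd])), zero_mul]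
        · have h5 : u' d = 0 := if_neg hd
          rw [h5, mul_zero]
      change ∑ d, Y.cmp c d * (u d - u' d) = 0
      simp only [mul_sub]
      rw [Finset.sum_sub_distrib, h2, h4, sub_zero]
  have h2 := congrFun (cmp_injective Y _ h1) a
  have h3 : u a - u' a = 0 := h2
  have h4 : u' a = 0 := if_neg hab
  rw [h4, sub_zero] at h3
  exact h3

theorem graded_mul {Y : DRBSpace B} {M N : Matrix B B ℂ} (hM : IsGraded Y M) (hN : IsGraded Y N) :
    IsGraded Y (M * N) := by
  intro a b hab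
  refine Finset.sum_eq_zero fun c _ => ?_
  by_cases hc : Y.deg a = Y.deg c
  · exact mul_eq_zero_of_right _ (hN c b fun h => hab (hc.trans h))
  · exact mul_eq_zero_of_left (hM a c hc) _

theorem graded_one {Y : DRBSpace B} : IsGraded Y (1 : Matrix B B ℂ) := fun a b hab =>
  Matrix.one_apply_ne fun h => hab (by rw [h])

theorem graded_map {Y : DRBSpace B} {M : Matrix B B ℂ} (hM : IsGraded Y M) (τ : ℂ ≃+* ℂ) :
    IsGraded Y (M.map τ) := fun a b hab => by
  rw [Matrix.map_apply, hM a b hab, map_zero]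

/-- Pairs of automorphisms. -/
abbrev Pairs : Type := (ℂ ≃+* ℂ) × {σ : ℂ ≃+* ℂ // FixesAlg σ}

/-- The operators `τ⁻¹ (C⁻¹ σ(C))`. -/
noncomputable def gen (Y : DRBSpace B) (g : Pairs) : Matrix B B ℂ :=
  (Y.cmp⁻¹ * Y.cmp.map g.2.1).map g.1.symm

/-- The operators of the words. -/
noncomputable def mat (Y : DRBSpace B) : FreeMonoid Pairs →* Matrix B B ℂ := FreeMonoid.lift (gen Y)

theorem mat_graded (Y : DRBSpace B) (g : FreeMonoid Pairs) : IsGraded Y (mat Y g) := by
  induction g using FreeMonoid.inductionOn with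
  | one => rw [map_one]; exact graded_one
  | of g =>
    change IsGraded Y (FreeMonoid.lift (gen Y) (FreeMonoid.of g))
    rw [FreeMonoid.lift_eval_of]
    exact graded_map (graded_mul (inv_graded Y) (graded_map (fun a b h => cmp_graded Y a b h) _)) _
  | mul g h hg hh => rw [map_mul]; exact graded_mul hg hh

/-- The eigenvalues. -/
noncomputable def ev (c : (ℂ ≃+* ℂ) → ℂˣ) : FreeMonoid Pairs →* ℂ :=
  FreeMonoid.lift fun g => g.1.symm ((c g.1 : ℂ) * (g.2.1 (c g.1 : ℂ))⁻¹)

/-- A vector with periods is a common eigenvector. -/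
theorem eigen (Y : DRBSpace B) {s : ℕ} {w : HG.Pow B s → ℂ} {c : (ℂ ≃+* ℂ) → ℂˣ}
    (h : (Y.pow s).HasPeriods w c) (g : FreeMonoid Pairs) :
    kpow (mat Y g) s *ᵥ w = ev c g • w := by
  induction g using FreeMonoid.inductionOn with
  | one =>
    rw [map_one, map_one, one_smul]
    exact kpow_fix (fun v => Matrix.one_mulVec v) s w
  | of g =>
    obtain ⟨τ, σ, hσ⟩ := g
    have h1 : mat Y (FreeMonoid.of (τ, ⟨σ, hσ⟩)) = gen Y (τ, ⟨σ, hσ⟩) := FreeMonoid.lift_eval_of _ _
    have h2 : ev c (FreeMonoid.of (τ, ⟨σ, hσ⟩)) = τ.symm ((c τ : ℂ) * (σ (c τ : ℂ))⁻¹) :=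
      FreeMonoid.lift_eval_of _ _
    rw [h1, h2]
    set C := Y.cmp with hC
    set u : HG.Pow B s → ℂ := fun b => τ (w b) with hu
    have hσc : σ (c τ : ℂ) ≠ 0 := (map_ne_zero σ).2 (c τ).ne_zero
    have h3 : kpow (C.map σ) s *ᵥ u = ((c τ : ℂ) * (σ (c τ : ℂ))⁻¹) • (kpow C s *ᵥ u) := by
      funext b
      have h4 := hσ _ (h.2 τ b)
      rw [map_mul, map_mulVec, pow_cmp, kpow_map] at h4
      have h5 : (fun c => σ ((fun b => τ (w b)) c)) = u := by
        funext c
        exact hσ _ (isAlgebraic_map (h.1 c) τ)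
      rw [h5] at h4
      rw [Pi.smul_apply, smul_eq_mul]
      have h6 : (σ (c τ : ℂ))⁻¹ * σ (c τ : ℂ) = 1 := inv_mul_cancel₀ hσc
      linear_combination (σ (c τ : ℂ))⁻¹ * h4 - (kpow (C.map σ) s *ᵥ u) b * h6
    have h4 : kpow (C⁻¹ * C.map σ) s *ᵥ u = ((c τ : ℂ) * (σ (c τ : ℂ))⁻¹) • u := by
      rw [kpow_mul, h3, Matrix.mulVec_smul, ← kpow_mul]
      congr 1
      exact kpow_fix (fun v => by
        rw [Matrix.nonsing_inv_mul _ (det_isUnit Y), Matrix.one_mulVec]) s u
    funext b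
    have h5 := congrArg τ.symm (congrFun h4 b)
    rw [map_mulVec, kpow_map] at h5
    have h6 : (fun c => τ.symm (u c)) = w := by
      funext c
      exact τ.symm_apply_apply _
    rw [h6, Pi.smul_apply, smul_eq_mul, map_mul τ.symm _ (u b)] at h5
    rw [Pi.smul_apply, smul_eq_mul]
    refine h5.trans ?_
    congr 1
    exact τ.symm_apply_apply _
  | mul g h hg hh =>
    rw [map_mul, kpow_mul, hh, Matrix.mulVec_smul, hg, smul_smul, map_mul, mul_comm]

/-- The entries of the powers are polynomials. -/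
theorem poly_kpow (Y : DRBSpace B) (s : ℕ) (p q : HG.Pow B s) :
    ∃ P : MvPolynomial {p : B × B // Y.deg p.1 = Y.deg p.2} ℂ, ∀ M, IsGraded Y M →
      MvPolynomial.eval (fun x => M x.1.1 x.1.2) P = kpow M s p q := by
  induction s with
  | zero => exact ⟨1, fun M _ => map_one _⟩
  | succ s ih =>
    obtain ⟨P, hP⟩ := ih p.2 q.2
    by_cases h : Y.deg p.1 = Y.deg q.1
    · refine ⟨MvPolynomial.X ⟨(p.1, q.1), h⟩ * P, fun M hM => ?_⟩
      rw [map_mul, MvPolynomial.eval_X, hP M hM]
      rfl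
    · refine ⟨0, fun M hM => ?_⟩
      rw [map_zero]
      change 0 = M p.1 q.1 * kpow M s p.2 q.2
      rw [hM _ _ h, zero_mul]

theorem poly_ev (Y : DRBSpace B) {s : ℕ} {w : HG.Pow B s → ℂ} {c : (ℂ ≃+* ℂ) → ℂˣ} (hw : w ≠ 0)
    (h : (Y.pow s).HasPeriods w c) :
    ∃ P : MvPolynomial {p : B × B // Y.deg p.1 = Y.deg p.2} ℂ, ∀ g,
      MvPolynomial.eval (fun x => mat Y g x.1.1 x.1.2) P = ev c g := by
  obtain ⟨p, hp⟩ := Function.ne_iff.1 hw
  have hp : w p ≠ 0 := hp
  choose P hP using poly_kpow Y s p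
  refine ⟨∑ q, MvPolynomial.C (w q / w p) * P q, fun g => ?_⟩
  rw [map_sum]
  have h1 := congrFun (eigen Y h g) p
  rw [Pi.smul_apply, smul_eq_mul] at h1
  have h2 : ev c g = (∑ q, kpow (mat Y g) s p q * w q) / w p := by
    rw [eq_div_iff hp, ← h1]
    rfl
  rw [h2, Finset.sum_div]
  refine Finset.sum_congr rfl fun q _ => ?_
  rw [map_mul, MvPolynomial.eval_C, hP q _ (mat_graded Y g)]
  ring

end gen

section dim

variable {B : Type} [Fintype B] {lam : ℂˣ → ℝ}

/-- The functions which generate the space of the periods. -/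
def periodSet (lam : ℂˣ → ℝ) (Y : DRBSpace B) : Set ((ℂ ≃+* ℂ) → ℝ) :=
  {f | ∃ (s : ℕ) (w : HG.Pow B s → ℂ) (c : (ℂ ≃+* ℂ) → ℂˣ), w ≠ 0 ∧
    (Y.pow s).HasPeriods w c ∧ f = fun σ => lam (c σ)}

theorem periodSpace_eq (lam : ℂˣ → ℝ) (Y : DRBSpace B) :
    Y.periodSpace lam = Submodule.span ℚ (periodSet lam Y) := rfl

/-- **The number of independent periods.** -/
theorem card_periods (hl : IsLog lam) (Y : DRBSpace B) (ι : Type) [Fintype ι]
    (f : ι → (ℂ ≃+* ℂ) → ℝ) (hf : ∀ i, f i ∈ periodSet lam Y) (hli : LinearIndependent ℚ f) :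
    Fintype.card ι ≤ Nat.card {p : B × B // Y.deg p.1 = Y.deg p.2} := by
  classical
  choose s w c hw hwc hfc using hf
  choose P hP using fun i => poly_ev Y (hw i) (hwc i)
  let X : (ι →₀ ℕ) → FreeMonoid Pairs →* ℂ := fun a => ∏ i, ev (c i) ^ a i
  have hX : ∀ a g, X a g = ∏ i, ev (c i) g ^ a i := by
    intro a g
    change (∏ i, ev (c i) ^ a i) g = _
    rw [MonoidHom.finsetProd_apply]
    rfl
  have hinj : Function.Injective X := by
    intro a b hab
    have h1 : ∀ τ : ℂ ≃+* ℂ, ∑ i, (a i : ℝ) * f i τ = ∑ i, (b i : ℝ) * f i τ := by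
      intro τ
      have h2 : ∀ a : ι →₀ ℕ, ∑ i, (a i : ℝ) * f i τ = lam (∏ i, c i τ ^ a i) := by
        intro a
        rw [hl.prod]
        refine Finset.sum_congr rfl fun i _ => ?_
        rw [hl.pow, hfc i]
      rw [h2, h2, hl.eq_iff]
      refine isAlgebraic_of_fixed fun σ hσ => ?_
      have h3 : ∀ a : ι →₀ ℕ, X a (FreeMonoid.of (τ, ⟨σ, hσ⟩)) = τ.symm
          (((∏ i, c i τ ^ a i : ℂˣ) : ℂ) * (σ ((∏ i, c i τ ^ a i : ℂˣ) : ℂ))⁻¹) := by
        intro a
        rw [hX]
        have h4 : ∀ i, ev (c i) (FreeMonoid.of (τ, ⟨σ, hσ⟩)) =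
            τ.symm ((c i τ : ℂ) * (σ (c i τ : ℂ))⁻¹) := fun i => FreeMonoid.lift_eval_of _ _
        simp only [h4]
        push_cast
        simp only [map_prod, map_pow, map_mul, map_inv₀, mul_pow, inv_pow, Finset.prod_mul_distrib,
          Finset.prod_inv_distrib]
      have h4 := h3 a
      rw [hab, h3 b] at h4
      have h5 := τ.symm.injective h4
      set u : ℂˣ := ∏ i, c i τ ^ a i
      set v : ℂˣ := ∏ i, c i τ ^ b i
      have hσu : σ (u : ℂ) ≠ 0 := (map_ne_zero σ).2 u.ne_zero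
      have hσv : σ (v : ℂ) ≠ 0 := (map_ne_zero σ).2 v.ne_zero
      rw [Units.val_mul, Units.val_inv_eq_inv_val, map_mul, map_inv₀]
      have hv := v.ne_zero
      field_simp at h5 ⊢
      linear_combination h5
    have h2 : ∑ i, ((a i : ℚ) - (b i : ℚ)) • f i = 0 := by
      funext τ
      rw [Finset.sum_apply, Pi.zero_apply]
      have h3 := h1 τ
      have h4 : ∑ i, (((a i : ℚ) - (b i : ℚ)) • f i) τ =
          ∑ i, (a i : ℝ) * f i τ - ∑ i, (b i : ℝ) * f i τ := by
        rw [← Finset.sum_sub_distrib]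
        refine Finset.sum_congr rfl fun i _ => ?_
        rw [Pi.smul_apply, Rat.smul_def]
        push_cast
        ring
      rw [h4, h3, sub_self]
    have h3 := Fintype.linearIndependent_iff.1 hli _ h2
    ext i
    have h4 := sub_eq_zero.1 (h3 i)
    exact_mod_cast h4
  have hind : LinearIndependent ℂ fun a => (X a : FreeMonoid Pairs → ℂ) :=
    (linearIndependent_monoidHom (FreeMonoid Pairs) ℂ).comp X hinj
  have halg : AlgebraicIndependent ℂ P := by
    rw [algebraicIndependent_iff]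
    intro F hF
    have h1 : ∀ g, ∑ a ∈ F.support, F.coeff a * X a g = 0 := by
      intro g
      have h2 := congrArg (MvPolynomial.eval fun x => mat Y g x.1.1 x.1.2) hF
      rw [map_zero, MvPolynomial.map_aeval, MvPolynomial.coe_eval₂Hom, MvPolynomial.eval₂_eq'] at h2
      rw [← h2]
      refine Finset.sum_congr rfl fun a _ => ?_
      rw [hX]
      congr 1
      · simp
      · exact Finset.prod_congr rfl fun i _ => by rw [hP]
    have h2 := linearIndependent_iff'.1 hind F.support (fun a => F.coeff a) (by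
      funext g
      rw [Finset.sum_apply, Pi.zero_apply]
      exact h1 g)
    by_contra hne
    obtain ⟨a, ha⟩ := MvPolynomial.support_nonempty.2 hne
    exact (MvPolynomial.mem_support_iff.1 ha) (h2 a ha)
  have h1 := halg.cardinalMk_le_trdeg
  rw [MvPolynomial.trdeg_of_isDomain, Cardinal.lift_id, Cardinal.mk_fintype, Cardinal.mk_fintype] at h1
  rw [Nat.card_eq_fintype_card]
  exact_mod_cast h1

theorem finrank_periodSpace (hl : IsLog lam) (Y : DRBSpace B) :
    FiniteDimensional ℚ (Y.periodSpace lam) ∧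
      finrank ℚ (Y.periodSpace lam) ≤ Nat.card {p : B × B // Y.deg p.1 = Y.deg p.2} := by
  classical
  set n := Nat.card {p : B × B // Y.deg p.1 = Y.deg p.2}
  obtain ⟨b, hb, hspan, hli⟩ := exists_linearIndependent ℚ (periodSet lam Y)
  have hcard : Cardinal.mk b ≤ n := by
    rw [Cardinal.mk_le_iff_forall_finset_subset_card_le]
    intro t ht
    have h1 := card_periods hl Y t (fun x => x.1) (fun x => hb (ht x.2))
      (hli.comp (fun x : t => (⟨x.1, ht x.2⟩ : b)) fun x y h => Subtype.ext (by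
        have := congrArg Subtype.val h
        exact this))
    rwa [Fintype.card_coe] at h1
  have hfin : Finite b := by
    rw [← Cardinal.lt_aleph0_iff_finite]
    exact hcard.trans_lt (Cardinal.natCast_lt_aleph0)
  have hft : Fintype b := Fintype.ofFinite b
  rw [periodSpace_eq, ← hspan]
  refine ⟨FiniteDimensional.span_of_finite ℚ (Set.toFinite b), ?_⟩
  have h2 : finrank ℚ (Submodule.span ℚ b) = Fintype.card b := by
    have h6 := finrank_span_eq_card hli
    rw [Subtype.range_coe] at h6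
    exact h6
  rw [h2]
  rw [Cardinal.mk_fintype] at hcard
  exact_mod_cast hcard

/-- The space of the periods is stable under translations. -/
theorem translates_periodSpace (Y : DRBSpace B) : TranslatesQ (Y.periodSpace lam) := by
  intro f hf τ
  rw [periodSpace_eq] at hf ⊢
  induction hf using Submodule.span_induction with
  | mem f hf =>
    obtain ⟨s, w, c, hw, h, rfl⟩ := hf
    refine Submodule.subset_span ⟨s, fun b => τ (w b), fun σ => c (τ.trans σ), fun h0 => hw ?_,
      ⟨fun b => isAlgebraic_map (h.1 b) τ, fun σ b => h.2 (τ.trans σ) b⟩, rfl⟩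
    funext b
    exact (map_eq_zero τ).1 (congrFun h0 b)
  | zero => exact Submodule.zero_mem _
  | add f g _ _ hf hg => exact Submodule.add_mem _ hf hg
  | smul c f _ hf => exact Submodule.smul_mem _ c hf

theorem periodsAreSmall (hl : IsLog lam) (Y : DRBSpace B) : PeriodsAreSmall lam Y := by
  have h := (finrank_periodSpace hl Y).1
  refine ⟨h, (finrank_periodSpace hl Y).2, ?_, ?_⟩
  · intro E _ _ _
    exact finrank_excSpace _ E
  · intro I _ E _ _ _ m hun hm hV
    exact sum_le m hun hm _ hV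

end dim

end Pool.Agent.H855.DRB
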