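import Mathlib
import Pool.Agent.H855.HG.Vectors
import Pool.Agent.H855.DRB.Chars

/-!
# De Rham-Betti classes on products with varieties of CM type
-/

set_option autoImplicit false
set_option linter.unusedSectionVars false
set_option linter.unusedVariables false

namespace Pool.Agent.H855.DRB

open Matrix Module NumberField Pool.Agent.TH170.MF Pool.Agent.TH170
  Pool.Agent.V1168.EV Pool.Agent.V1168.EF Pool.Agent.W484.HS Pool.Agent.Y137.MV Pool.Agent.H855.CM
  Pool.Agent.H855.HG Pool.Agent.H855.DP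

section comb

variable {J : Type} [Fintype J]
  {L : J → Type} [∀ j, Field (L j)] [∀ j, NumberField (L j)] [∀ j, IsCMField (L j)]

/-- **The combinations.** If the translates of `g` are values of relations, so are combinations. -/
theorem isRealComb_of (x₀ : ∀ j, (L j →+* ℂ) → ℝ) {E : Type} [Field E] [NumberField E] [IsCMField E]
    (v : (E →+* ℂ) → ℝ) (hodd : ∀ φ, v (ComplexEmbedding.conjugate φ) = - v φ)
    (g : (ℂ ≃+* ℂ) → ℝ)
    (hv : ∀ φ, (fun σ : ℂ ≃+* ℂ => v ((σ : ℂ →+* ℂ).comp φ)) ∈ transSpan g)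
    (n₁ : Emb L → ℚ) (hn₁ : OddQ n₁) (hg : relMap (fun y : Emb L => x₀ y.1 y.2) n₁ = g) :
    IsRealComb x₀ v := by
  classical
  set x : Emb L → ℝ := fun y => x₀ y.1 y.2 with hx
  -- the values of relations
  let R : Submodule ℚ ((ℂ ≃+* ℂ) → ℝ) :=
    { carrier := {h | ∃ n : Emb L → ℚ, OddQ n ∧ relMap x n = h}
      zero_mem' := ⟨0, fun y => by simp, map_zero _⟩
      add_mem' := by
        rintro _ _ ⟨n, h1, rfl⟩ ⟨n', h2, rfl⟩
        refine ⟨n + n', fun y => ?_, map_add _ _ _⟩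
        rw [Pi.add_apply, Pi.add_apply, h1, h2]
        ring
      smul_mem' := by
        rintro c _ ⟨n, h1, rfl⟩
        refine ⟨c • n, fun y => ?_, map_smul _ _ _⟩
        rw [Pi.smul_apply, Pi.smul_apply, h1, smul_neg] }
  have hR : TranslatesQ R := by
    rintro _ ⟨n, h1, rfl⟩ τ
    refine ⟨fun y => n (act τ.symm y), fun y => ?_, relMap_act' x n τ⟩
    change n (act τ.symm (Pool.Agent.V1168.EV.bar y)) = - n (act τ.symm y)
    rw [act_bar, h1]
  have hle : transSpan g ≤ R := transSpan_le hR ⟨n₁, hn₁, hg⟩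
  choose n hn hrel using fun φ : E →+* ℂ => hle (hv φ)
  -- the relations
  let Z : Submodule ℚ (Emb L → ℚ) := relSpace x ⊥
  have hZst : ∀ τ : ℂ ≃+* ℂ, ∀ f ∈ Z, (fun y => f (act τ y)) ∈ Z :=
    fun τ f hf => relSpace_stable x translates_bot τ f hf
  have hP : ∀ (τ : ℂ ≃+* ℂ) (f : Emb L → ℚ),
      oproj Z (fun y => f (act τ y)) = fun y => oproj Z f (act τ y) := by
    intro τ f
    exact oproj_perm Z (act τ) (hZst τ) (fun f hf => hZst τ.symm f hf) f
  let t : (E →+* ℂ) → Emb L → ℚ := fun φ => n φ - oproj Z (n φ)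
  have htodd : ∀ φ, OddQ (t φ) := by
    intro φ y
    have h1 := hn φ y
    have h2 := (oproj_mem Z (n φ)).1 y
    change n φ (Pool.Agent.V1168.EV.bar y) - oproj Z (n φ) (Pool.Agent.V1168.EV.bar y) =
      -(n φ y - oproj Z (n φ) y)
    rw [h1, h2]
    ring
  have htP : ∀ φ, oproj Z (t φ) = 0 := by
    intro φ
    change oproj Z (n φ - oproj Z (n φ)) = 0
    rw [map_sub, oproj_eq Z (oproj_mem Z (n φ)), sub_self]
  have htrel : ∀ φ, relMap x (t φ) = fun σ : ℂ ≃+* ℂ => v ((σ : ℂ →+* ℂ).comp φ) := by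
    intro φ
    change relMap x (n φ - oproj Z (n φ)) = _
    have h1 := (oproj_mem Z (n φ)).2
    rw [Submodule.mem_bot] at h1
    rw [map_sub, h1, sub_zero, hrel]
  have huniq : ∀ f f' : Emb L → ℚ, OddQ f → OddQ f' → oproj Z f = 0 → oproj Z f' = 0 →
      relMap x f = relMap x f' → f = f' := by
    intro f f' h1 h2 h3 h4 h5
    have h6 : f - f' ∈ Z := by
      refine ⟨fun y => ?_, ?_⟩
      · rw [Pi.sub_apply, Pi.sub_apply, h1, h2]
        ring
      · rw [Submodule.mem_bot, map_sub, h5, sub_self]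
    have h7 := oproj_eq Z h6
    rw [map_sub, h3, h4, sub_zero] at h7
    exact (sub_eq_zero.1 h7.symm)
  have hinv : ∀ (τ : ℂ ≃+* ℂ) (φ : E →+* ℂ),
      (fun y => t ((τ : ℂ →+* ℂ).comp φ) (act τ y)) = t φ := by
    intro τ φ
    refine huniq _ _ (fun y => ?_) (htodd φ) ?_ (htP φ) ?_
    · rw [act_bar, htodd]
    · rw [hP, htP]
      rfl
    · rw [relMap_act, htrel, htrel]
      funext σ
      have h1 : ((τ.symm.trans σ : ℂ ≃+* ℂ) : ℂ →+* ℂ).comp ((τ : ℂ →+* ℂ).comp φ) =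
          (σ : ℂ →+* ℂ).comp φ := by
        ext z
        change σ (τ.symm (τ (φ z))) = σ (φ z)
        rw [RingEquiv.symm_apply_apply]
      exact congrArg v h1
  refine ⟨t, fun τ φ y => congrFun (hinv τ φ) y, fun φ y => htodd φ y, fun φ y hun => ?_,
    fun φ => ?_⟩
  · -- unrelated fields
    have htbar : t (ComplexEmbedding.conjugate φ) = - t φ := by
      refine huniq _ _ (htodd _) (fun y => ?_) (htP _) ?_ ?_
      · rw [Pi.neg_apply, Pi.neg_apply, htodd]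
      · rw [map_neg, htP, neg_zero]
      · rw [map_neg, htrel, htrel]
        funext σ
        rw [QC.comp_conj σ φ, hodd]
        rfl
    let T : ((E →+* ℂ) → ℚ) →ₗ[ℚ] ((L y.1 →+* ℂ) → ℚ) :=
      { toFun := fun m ψ => ∑ φ, m φ * t φ ⟨y.1, ψ⟩
        map_add' := fun m m' => by
          funext ψ
          rw [Pi.add_apply, ← Finset.sum_add_distrib]
          exact Finset.sum_congr rfl fun φ _ => by rw [Pi.add_apply, add_mul]
        map_smul' := fun c m => by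
          funext ψ
          rw [RingHom.id_apply, Pi.smul_apply, smul_eq_mul, Finset.mul_sum]
          exact Finset.sum_congr rfl fun φ _ => by rw [Pi.smul_apply, smul_eq_mul, mul_assoc] }
    have hT := hun T (by
      intro τ m ψ
      let e : Equiv.Perm (E →+* ℂ) :=
        { toFun := fun φ => (τ : ℂ →+* ℂ).comp φ
          invFun := fun φ => (τ.symm : ℂ →+* ℂ).comp φ
          left_inv := fun φ => by ext z; simp
          right_inv := fun φ => by ext z; simp }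
      change ∑ φ, m ((τ : ℂ →+* ℂ).comp φ) * t φ ⟨y.1, ψ⟩ =
        ∑ φ, m φ * t φ ⟨y.1, (τ : ℂ →+* ℂ).comp ψ⟩
      refine Fintype.sum_equiv e _ _ fun φ => ?_
      have h1 := congrFun (hinv τ φ) ⟨y.1, ψ⟩
      change t ((τ : ℂ →+* ℂ).comp φ) ⟨y.1, (τ : ℂ →+* ℂ).comp ψ⟩ = t φ ⟨y.1, ψ⟩ at h1
      change _ = m ((τ : ℂ →+* ℂ).comp φ) * t ((τ : ℂ →+* ℂ).comp φ)
        ⟨y.1, (τ : ℂ →+* ℂ).comp ψ⟩
      rw [h1]) (by
      intro m ψ
      change ∑ φ, m φ * t φ ⟨y.1, ComplexEmbedding.conjugate ψ⟩ = -∑ φ, m φ * t φ ⟨y.1, ψ⟩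
      rw [← Finset.sum_neg_distrib]
      refine Finset.sum_congr rfl fun φ _ => ?_
      have h1 := htodd φ ⟨y.1, ψ⟩
      change t φ ⟨y.1, ComplexEmbedding.conjugate ψ⟩ = - t φ ⟨y.1, ψ⟩ at h1
      rw [h1, mul_neg]) (dd φ) (dd_odd φ)
    have h1 := congrFun hT y.2
    change ∑ φ', dd φ φ' * t φ' ⟨y.1, y.2⟩ = 0 at h1
    rw [sum_ddQ φ (fun φ' => t φ' ⟨y.1, y.2⟩), htbar] at h1
    have h2 : t φ y - - t φ y = 0 := h1
    linarith
  · have h1 := congrFun (htrel φ) (RingEquiv.refl ℂ)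
    rw [relMap_apply] at h1
    have h2 : ((RingEquiv.refl ℂ : ℂ ≃+* ℂ) : ℂ →+* ℂ).comp φ = φ := by
      ext z
      rfl
    rw [h2] at h1
    rw [← h1]
    rfl


/-- The relation of a generated type. -/
theorem exists_relation {lam : ℂˣ → ℝ} (hl : IsLog lam) (x : ∀ j, (L j →+* ℂ) → ℂˣ)
    (hx : ∀ j φ, IsAlgebraic ℚ ((x j (ComplexEmbedding.conjugate φ) : ℂ) * (x j φ : ℂ)))
    (c : (ℂ ≃+* ℂ) → ℂˣ) (N : ℕ) (m : (Σ j, (L j →+* ℂ)) → ℤ) (hN : 0 < N)
    (h : ∀ σ : ℂ ≃+* ℂ, IsAlgebraic ℚ (((c σ ^ N : ℂˣ) : ℂ) *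
        ((∏ y, x y.1 ((σ : ℂ →+* ℂ).comp y.2) ^ (- m y) : ℂˣ) : ℂ))) :
    ∃ n : Emb L → ℚ, OddQ n ∧ relMap (fun y : Emb L => lam (x y.1 y.2)) n =
      fun σ => lam (c σ)⁻¹ := by
  let n : Emb L → ℚ := fun y =>
    -((m y : ℚ) - (m (Pool.Agent.V1168.EV.bar y) : ℚ)) / (2 * N)
  refine ⟨n, fun y => ?_, ?_⟩
  · change -((m (Pool.Agent.V1168.EV.bar y) : ℚ) -
      (m (Pool.Agent.V1168.EV.bar (Pool.Agent.V1168.EV.bar y)) : ℚ)) / (2 * N) =
      -(-((m y : ℚ) - (m (Pool.Agent.V1168.EV.bar y) : ℚ)) / (2 * N))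
    rw [bar_bar]
    ring
  · funext σ
    have hN' : (N : ℝ) ≠ 0 := Nat.cast_ne_zero.2 hN.ne'
    set z : Emb L → ℝ := fun y => lam (x y.1 y.2) with hz
    have h1 : (N : ℝ) * lam (c σ) = ∑ y : Emb L, (m y : ℝ) * z (act σ y) := by
      have h2 := h σ
      rw [← Units.val_mul, ← hl.zero_iff, hl.mul, hl.pow, hl.prod] at h2
      have h3 : ∑ y : (Σ j, (L j →+* ℂ)), lam (x y.1 ((σ : ℂ →+* ℂ).comp y.2) ^ (- m y)) =
          -∑ y : Emb L, (m y : ℝ) * z (act σ y) := by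
        rw [← Finset.sum_neg_distrib]
        refine Finset.sum_congr rfl fun y _ => ?_
        rw [hl.zpow]
        push_cast
        rw [neg_mul]
        rfl
      rw [h3] at h2
      linarith
    have hodd : ∀ y : Emb L, z (Pool.Agent.V1168.EV.bar y) = - z y := by
      intro y
      change lam (x y.1 (ComplexEmbedding.conjugate y.2)) = -lam (x y.1 y.2)
      have h2 := hx y.1 y.2
      rw [← Units.val_mul, ← hl.zero_iff, hl.mul] at h2
      linarith
    let eb : Equiv.Perm (Emb L) :=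
      { toFun := Pool.Agent.V1168.EV.bar
        invFun := Pool.Agent.V1168.EV.bar
        left_inv := bar_bar
        right_inv := bar_bar }
    have h3 : ∑ y : Emb L, (m (Pool.Agent.V1168.EV.bar y) : ℝ) * z (act σ y) =
        -∑ y : Emb L, (m y : ℝ) * z (act σ y) := by
      rw [← Finset.sum_neg_distrib]
      refine Fintype.sum_equiv eb _ _ fun y => ?_
      change _ = -((m (Pool.Agent.V1168.EV.bar y) : ℝ) * z (act σ (Pool.Agent.V1168.EV.bar y)))
      rw [act_bar, hodd]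
      ring
    rw [relMap_apply]
    have h4 : ∀ y : Emb L, (n y : ℝ) * z (act σ y) = -(1 / (2 * N)) *
        ((m y : ℝ) * z (act σ y) - (m (Pool.Agent.V1168.EV.bar y) : ℝ) * z (act σ y)) := by
      intro y
      simp only [n]
      push_cast
      ring
    rw [Finset.sum_congr rfl fun y _ => h4 y, ← Finset.mul_sum, Finset.sum_sub_distrib, h3, ← h1,
      hl.inv]
    field_simp
    ring

end comb

section gens

variable {A B B' : Type} [Fintype A] [Fintype B] [Fintype B']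
  {J : Type} [Fintype J] {L : J → Type} [∀ j, Field (L j)] [∀ j, NumberField (L j)]
  {x : ∀ j, (L j →+* ℂ) → ℂˣ}

/-- The functions generated by the functions `x j`. -/
def genSet {J : Type} [Fintype J] {L : J → Type} [∀ j, Field (L j)] [∀ j, NumberField (L j)]
    (x : ∀ j, (L j →+* ℂ) → ℂˣ) : Set ((ℂ ≃+* ℂ) → ℂˣ) :=
  {c | ∃ (N : ℕ) (m : (Σ j, (L j →+* ℂ)) → ℤ), 0 < N ∧ ∀ σ : ℂ ≃+* ℂ,
    IsAlgebraic ℚ (((c σ ^ N : ℂˣ) : ℂ) *
      ((∏ y, x y.1 ((σ : ℂ →+* ℂ).comp y.2) ^ (- m y) : ℂˣ) : ℂ))}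

theorem genSet_one : (fun _ => 1) ∈ genSet x := by
  refine ⟨1, 0, one_pos, fun σ => ?_⟩
  simp only [Pi.zero_apply, neg_zero, zpow_zero, Finset.prod_const_one, one_pow, Units.val_one,
    mul_one]
  exact isAlgebraic_one

theorem genSet_mul {c c' : (ℂ ≃+* ℂ) → ℂˣ} (h : c ∈ genSet x) (h' : c' ∈ genSet x) :
    (fun σ => c σ * c' σ) ∈ genSet x := by
  obtain ⟨N, m, hN, h1⟩ := h
  obtain ⟨N', m', hN', h1'⟩ := h'
  refine ⟨N * N', fun y => N' * m y + N * m' y, Nat.mul_pos hN hN', fun σ => ?_⟩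
  have h2 := ((h1 σ).pow N').mul ((h1' σ).pow N)
  have h3 : (((c σ * c' σ) ^ (N * N') : ℂˣ) : ℂ) *
      ((∏ y, x y.1 ((σ : ℂ →+* ℂ).comp y.2) ^ (-(N' * m y + N * m' y)) : ℂˣ) : ℂ) =
      (((c σ ^ N : ℂˣ) : ℂ) * ((∏ y, x y.1 ((σ : ℂ →+* ℂ).comp y.2) ^ (- m y) : ℂˣ) : ℂ)) ^ N' *
      (((c' σ ^ N' : ℂˣ) : ℂ) *
        ((∏ y, x y.1 ((σ : ℂ →+* ℂ).comp y.2) ^ (- m' y) : ℂˣ) : ℂ)) ^ N := by
    simp only [← Units.val_mul, ← Units.val_pow_eq_pow_val]
    congr 1
    have h4 : ∏ y : (Σ j, (L j →+* ℂ)), x y.1 ((σ : ℂ →+* ℂ).comp y.2) ^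
        (-((N' : ℤ) * m y + N * m' y)) =
        (∏ y : (Σ j, (L j →+* ℂ)), x y.1 ((σ : ℂ →+* ℂ).comp y.2) ^ (- m y)) ^ N' *
        (∏ y : (Σ j, (L j →+* ℂ)), x y.1 ((σ : ℂ →+* ℂ).comp y.2) ^ (- m' y)) ^ N := by
      rw [← Finset.prod_pow, ← Finset.prod_pow, ← Finset.prod_mul_distrib]
      refine Finset.prod_congr rfl fun y _ => ?_
      rw [← zpow_natCast, ← zpow_natCast, ← _root_.zpow_mul, ← _root_.zpow_mul, ← _root_.zpow_add]
      congr 1
      ring
    rw [h4, mul_pow, mul_pow, mul_pow, ← pow_mul, ← pow_mul, mul_comm N' N]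
    exact mul_mul_mul_comm _ _ _ _
  rw [h3]
  exact h2

theorem genSet_congr {c c' : (ℂ ≃+* ℂ) → ℂˣ} (h : c ∈ genSet x)
    (hcc : ∀ σ, IsAlgebraic ℚ ((c' σ * (c σ)⁻¹ : ℂˣ) : ℂ)) : c' ∈ genSet x := by
  obtain ⟨N, m, hN, h1⟩ := h
  refine ⟨N, m, hN, fun σ => ?_⟩
  have h2 := ((hcc σ).pow N).mul (h1 σ)
  have h3 : ((c' σ ^ N : ℂˣ) : ℂ) = ((c' σ * (c σ)⁻¹ : ℂˣ) : ℂ) ^ N * ((c σ ^ N : ℂˣ) : ℂ) := by
    rw [← Units.val_pow_eq_pow_val, ← Units.val_mul, mul_pow, inv_pow, inv_mul_cancel_right]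
  rw [h3, mul_assoc]
  exact h2

theorem span_of_gen {V : DRBSpace B} (hV : V.IsOfCMType) (hx : V.IsGeneratedBy x) :
    Submodule.span ℂ {w | ∃ c ∈ genSet x, V.HasPeriods w c} = ⊤ := by
  rw [eq_top_iff]
  have h1 : Submodule.span ℂ {w | ∃ c, V.HasPeriods w c} = ⊤ := hV
  rw [← h1]
  refine Submodule.span_le.2 ?_
  rintro w ⟨d, hd⟩
  by_cases hw : w = 0
  · rw [hw]
    exact Submodule.zero_mem _
  · exact Submodule.subset_span ⟨d, hx w d hw hd, hd⟩

theorem isOfCMType_of_span {V : DRBSpace B}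
    (h : Submodule.span ℂ {w | ∃ c ∈ genSet x, V.HasPeriods w c} = ⊤) : V.IsOfCMType := by
  change Submodule.span ℂ {w | ∃ c, V.HasPeriods w c} = ⊤
  rw [eq_top_iff, ← h]
  refine Submodule.span_mono ?_
  rintro w ⟨d, -, hd⟩
  exact ⟨d, hd⟩

theorem isGeneratedBy_of_span {V : DRBSpace B}
    (h : Submodule.span ℂ {w | ∃ c ∈ genSet x, V.HasPeriods w c} = ⊤) : V.IsGeneratedBy x := by
  intro w c hw hc
  obtain ⟨ι, _, e, d, he⟩ := exists_basis _ h
  obtain ⟨k, hk⟩ := period_of_basis e d (fun i => (he i).2) hw hc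
  exact genSet_congr (he k).1 hk

theorem hasPeriods_cross {V : DRBSpace B'} {W : DRBSpace B} {u : B' → ℂ} {v : B → ℂ}
    {c c' : (ℂ ≃+* ℂ) → ℂˣ} (hu : V.HasPeriods u c) (hv : W.HasPeriods v c') :
    (V.prod W).HasPeriods (cross u v) (fun σ => c σ * c' σ) := by
  refine ⟨fun p => (hu.1 p.1).mul (hv.1 p.2), fun σ p => ?_⟩
  have h1 : (fun p : B' × B => σ (cross u v p)) = cross (fun a => σ (u a)) (fun b => σ (v b)) := by
    funext p
    exact map_mul σ _ _
  rw [h1, prod_cross]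
  have h2 := (hu.2 σ p.1).mul (hv.2 σ p.2)
  have h3 : ((c σ * c' σ : ℂˣ) : ℂ) * ((V.cmp *ᵥ fun a => σ (u a)) p.1 *
      (W.cmp *ᵥ fun b => σ (v b)) p.2) = (c σ : ℂ) * (V.cmp *ᵥ fun a => σ (u a)) p.1 *
      ((c' σ : ℂ) * (W.cmp *ᵥ fun b => σ (v b)) p.2) := by
    rw [Units.val_mul]
    ring
  rw [h3]
  exact h2

theorem span_prod {V : DRBSpace B'} {W : DRBSpace B}
    (hV : Submodule.span ℂ {w | ∃ c ∈ genSet x, V.HasPeriods w c} = ⊤)
    (hW : Submodule.span ℂ {w | ∃ c ∈ genSet x, W.HasPeriods w c} = ⊤) :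
    Submodule.span ℂ {w | ∃ c ∈ genSet x, (V.prod W).HasPeriods w c} = ⊤ := by
  rw [eq_top_iff]
  intro w _
  have h1 := mem_span_cross w (S := {w | ∃ c ∈ genSet x, V.HasPeriods w c})
    (T := {w | ∃ c ∈ genSet x, W.HasPeriods w c}) (fun u => by rw [hV]; exact Submodule.mem_top)
    (fun v => by rw [hW]; exact Submodule.mem_top)
  refine Submodule.span_mono ?_ h1
  rintro _ ⟨u, ⟨d, hd, hu⟩, v, ⟨d', hd', hv⟩, rfl⟩
  exact ⟨_, genSet_mul hd hd', hasPeriods_cross hu hv⟩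

theorem point_cmp (w : Unit → ℂ) : DRBSpace.point.cmp *ᵥ w = w := by
  funext u
  change ∑ q : Unit, (root ^ 0 * 1) * w q = w u
  rw [pow_zero, one_mul, Fintype.sum_unique, one_mul]

theorem span_point : Submodule.span ℂ {w | ∃ c ∈ genSet x, DRBSpace.point.HasPeriods w c} = ⊤ := by
  rw [eq_top_iff]
  intro w _
  have h1 : w = w () • (fun _ => 1) := by
    funext u
    change w u = w () * 1
    rw [mul_one]
  rw [h1]
  refine Submodule.smul_mem _ _ (Submodule.subset_span ⟨_, genSet_one, fun _ => isAlgebraic_one,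
    fun σ b => ?_⟩)
  have h2 : (fun _ : Unit => σ 1) = fun _ => 1 := by
    funext u
    exact map_one σ
  rw [h2, point_cmp, Units.val_one, one_mul]
  exact isAlgebraic_one

theorem span_pow {V : DRBSpace A}
    (hV : Submodule.span ℂ {w | ∃ c ∈ genSet x, V.HasPeriods w c} = ⊤) (r : ℕ) :
    Submodule.span ℂ {w | ∃ c ∈ genSet x, (V.pow r).HasPeriods w c} = ⊤ := by
  induction r with
  | zero => exact span_point
  | succ r ih => exact span_prod hV ih

end gens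

section main

variable {A B : Type} [Fintype A] [Fintype B] {lam : ℂˣ → ℝ}

/-- **The theorem on all powers.** -/
theorem classes_pow (hl : IsLog lam) {Y : DRBSpace B} {J : Type} [Fintype J] {L : J → Type}
    [∀ j, Field (L j)] [∀ j, NumberField (L j)] [∀ j, IsCMField (L j)]
    (x : ∀ j, (L j →+* ℂ) → ℂˣ)
    (hx : ∀ j φ, IsAlgebraic ℚ ((x j (ComplexEmbedding.conjugate φ) : ℂ) * (x j φ : ℂ)))
    (hcomb : ∀ j, ∀ v ∈ excSpace (Y.periodSpace lam) (L j),
      IsRealComb (fun j φ => lam (x j φ)) v → v = 0)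
    {X : DRBSpace A} (hX : X.IsOfCMType) (hgen : X.IsGeneratedBy x) (s m : ℕ) :
    (X.prod (Y.pow s)).classes m = Submodule.span ℚ {z | ∃ i k, i + k = m ∧
      ∃ x ∈ X.classes i, ∃ y ∈ (Y.pow s).classes k, z = cross x y} := by
  refine classes_prod hX (fun u v c hu hv huc hvc => ?_) m
  by_contra hd
  obtain ⟨N, mm, hN, hsum⟩ := hgen u c hu huc
  obtain ⟨n, hn, hrel⟩ := exists_relation hl x hx c N mm hN hsum
  have h0 : relMap (fun y : Emb L => lam (x y.1 y.2)) n ≠ 0 := by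
    intro h
    apply hd
    intro σ
    have h1 := congrFun (hrel.symm.trans h) σ
    have h2 : lam (c σ)⁻¹ = 0 := h1
    rw [hl.inv, neg_eq_zero, hl.zero_iff] at h2
    exact h2
  have hmem : relMap (fun y : Emb L => lam (x y.1 y.2)) n ∈ Y.periodSpace lam := by
    rw [hrel]
    exact Submodule.subset_span ⟨s, v, _, hv, hvc, rfl⟩
  obtain ⟨j, v', hv0, hodd, hv'⟩ := Pool.Agent.H855.CM.exists_vector
    (fun y : Emb L => lam (x y.1 y.2)) n hn h0
  refine hv0 (hcomb j v' ⟨hodd, fun φ => transSpan_le (translates_periodSpace Y) hmem (hv' φ)⟩ ?_)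
  exact isRealComb_of (fun j φ => lam (x j φ)) v' hodd _ hv' n hn rfl

theorem one_mem_point : (fun _ : Unit => (1 : ℚ)) ∈ DRBSpace.point.classes 0 := by
  refine ⟨fun b => ?_, fun b hb => absurd rfl hb⟩
  rw [point_cmp]
  change IsAlgebraic ℚ ((1 : ℚ) : ℂ)
  exact isAlg_rat 1

theorem motivatedOnAllPowers {V : DRBSpace A} {W : DRBSpace B} (h : ClassesOnAllPowers V W) :
    MotivatedOnAllPowers V W := by
  intro M
  refine ⟨fun h1 => ⟨fun r j => h1 r 0 j, fun s j => h1 0 s j⟩, fun ⟨h1, h2⟩ r s j => ?_⟩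
  refine le_antisymm (M.le r s j) ?_
  rw [h r s (2 * j)]
  refine Submodule.span_le.2 ?_
  rintro _ ⟨i, k, hik, x, hx, y, hy, rfl⟩
  by_cases hi : Even i
  · obtain ⟨i', rfl⟩ := hi
    obtain ⟨k', rfl⟩ : ∃ k', k = k' + k' := ⟨j - i', by omega⟩
    have h3 : i' + k' = j := by omega
    subst h3
    refine M.mul r s i' k' x y ?_ ?_
    · rw [h1]
      have h4 : (fun p : HG.Pow A r × HG.Pow B 0 => x p.1) =
          cross x (fun _ : HG.Pow B 0 => (1 : ℚ)) := by
        funext p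
        exact (mul_one _).symm
      rw [h4]
      have h5 := cross_classes (V := V.pow r) (W := DRBSpace.point) hx one_mem_point
      rw [add_zero, ← two_mul] at h5
      exact h5
    · rw [h2]
      have h4 : (fun p : HG.Pow A 0 × HG.Pow B s => y p.2) =
          cross (fun _ : HG.Pow A 0 => (1 : ℚ)) y := by
        funext p
        exact (one_mul _).symm
      rw [h4]
      have h5 := cross_classes (V := DRBSpace.point) (W := W.pow s) one_mem_point hy
      rw [zero_add, ← two_mul] at h5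
      exact h5
  · have h3 := M.odd h1 r i hi
    rw [h3] at hx
    have h4 : x = 0 := hx
    have h5 : cross x y = 0 := by
      funext p
      change x p.1 * y p.2 = 0
      rw [h4]
      exact zero_mul _
    rw [h5]
    exact Submodule.zero_mem _

/-- **The theorem on de Rham-Betti classes on all powers.** -/
theorem forAllOutside (hl : IsLog lam) (Y : DRBSpace B) :
    ForAllOutside lam (Y.periodSpace lam)
      (fun _ _ X => ClassesOnAllPowers X Y ∧ MotivatedOnAllPowers X Y) := by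
  intro J _ L _ _ _ x hx hcomb A _ X hX hgen
  have h1 : ClassesOnAllPowers X Y := by
    intro r s m
    have h2 := span_pow (span_of_gen hX hgen) r
    exact classes_pow hl x hx hcomb (isOfCMType_of_span h2) (isGeneratedBy_of_span h2) s m
  exact ⟨h1, motivatedOnAllPowers h1⟩

end main

end Pool.Agent.H855.DRB
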